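import Mathlib

/-!
An Assouad type embedding theorem for discrete metric spaces with a packing bound: an injective
Lipschitz map into `ℤ^d` whose dimension and Lipschitz constant depend on the packing constant only.
-/

namespace Pool.Agent.Y368.WB

/-- A metric with values in the natural numbers. -/
structure IsMet {Ω : Type} (ρ : Ω → Ω → ℕ) : Prop where
  eq_zero : ∀ x y, ρ x y = 0 ↔ x = y
  comm : ∀ x y, ρ x y = ρ y x
  tri : ∀ x y z, ρ x z ≤ ρ x y + ρ y z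

/-- Packing bound: at every scale `r ≥ 1` every ball of radius `16 r` contains at most `D` points
with mutual distances `≥ r`. -/
def PacksM {Ω : Type} (ρ : Ω → Ω → ℕ) (D : ℕ) : Prop :=
  ∀ r : ℕ, 1 ≤ r → ∀ (x : Ω) (P : Finset Ω), (∀ p ∈ P, ρ x p ≤ 16 * r) →
    (∀ p ∈ P, ∀ q ∈ P, p ≠ q → r ≤ ρ p q) → P.card ≤ D

namespace AssM

variable {Ω : Type}

theorem rho_self {ρ : Ω → Ω → ℕ} (hρ : IsMet ρ) (g : Ω) : ρ g g = 0 := (hρ.eq_zero g g).2 rfl

theorem rho_pos {ρ : Ω → Ω → ℕ} (hρ : IsMet ρ) {g h : Ω} (hgh : g ≠ h) : 1 ≤ ρ g h := by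
  rw [Nat.one_le_iff_ne_zero, Ne, hρ.eq_zero]
  exact hgh

/-- Maximal separated subsets. -/
theorem exists_net {ρ : Ω → Ω → ℕ} (hρ : IsMet ρ) (U : Set Ω) (a : ℕ) (ha : 1 ≤ a) :
    ∃ P : Set Ω, P ⊆ U ∧ (∀ p ∈ P, ∀ q ∈ P, p ≠ q → a ≤ ρ p q) ∧
      ∀ g ∈ U, ∃ p ∈ P, ρ p g < a := by
  obtain ⟨P, hP⟩ := zorn_subset {P : Set Ω | P ⊆ U ∧ P.Pairwise fun p q => a ≤ ρ p q} (by
    intro c hc hchain
    refine ⟨⋃₀ c, ⟨Set.sUnion_subset fun s hs => (hc hs).1, ?_⟩, fun s hs => Set.subset_sUnion_of_mem hs⟩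
    rw [Set.pairwise_sUnion hchain.directedOn]
    exact fun s hs => (hc hs).2)
  refine ⟨P, hP.prop.1, fun p hp q hq h => hP.prop.2 hp hq h, fun g hg => ?_⟩
  by_contra hcon
  push Not at hcon
  have hgP : g ∉ P := fun h => by
    have := hcon g h
    rw [rho_self hρ] at this
    omega
  have h1 : insert g P ∈ {P : Set Ω | P ⊆ U ∧ P.Pairwise fun p q => a ≤ ρ p q} := by
    refine ⟨Set.insert_subset hg hP.prop.1, ?_⟩
    intro p hp q hq hpq
    show a ≤ ρ p q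
    rcases Set.mem_insert_iff.1 hp with hp' | hp'
    · rcases Set.mem_insert_iff.1 hq with hq' | hq'
      · exact absurd (hp'.trans hq'.symm) hpq
      · rw [hρ.comm, hp']
        exact hcon q hq'
    · rcases Set.mem_insert_iff.1 hq with hq' | hq'
      · rw [hq']
        exact hcon p hp'
      · exact hP.prop.2 hp' hq' hpq
  have h2 := hP.le_of_ge h1 (Set.subset_insert g P)
  exact hgP (h2 (Set.mem_insert g P))

/-- A chosen net. -/
noncomputable def net {ρ : Ω → Ω → ℕ} (hρ : IsMet ρ) (U : Set Ω) (r : ℕ) : Set Ω :=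
  Classical.choose (exists_net hρ U (15 * r + 1) (by omega))

theorem net_spec {ρ : Ω → Ω → ℕ} (hρ : IsMet ρ) (U : Set Ω) (r : ℕ) :
    net hρ U r ⊆ U ∧ (∀ p ∈ net hρ U r, ∀ q ∈ net hρ U r, p ≠ q → 15 * r + 1 ≤ ρ p q) ∧
      ∀ g ∈ U, ∃ p ∈ net hρ U r, ρ p g < 15 * r + 1 :=
  Classical.choose_spec (exists_net hρ U (15 * r + 1) (by omega))

/-- The part of the group which is not covered after `c` nets. -/
noncomputable def Un {ρ : Ω → Ω → ℕ} (hρ : IsMet ρ) (r : ℕ) : ℕ → Set Ω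
  | 0 => Set.univ
  | c + 1 => {g | g ∈ Un hρ r c ∧ ∀ p ∈ net hρ (Un hρ r c) r, r ≤ ρ p g}

theorem Un_anti {ρ : Ω → Ω → ℕ} (hρ : IsMet ρ) (r : ℕ) {c c' : ℕ} (h : c ≤ c') :
    Un hρ r c' ⊆ Un hρ r c := by
  induction h with
  | refl => exact subset_rfl
  | step _ ih => exact fun g hg => ih hg.1

/-- The nets of scale `r`. -/
noncomputable def Pn {ρ : Ω → Ω → ℕ} (hρ : IsMet ρ) (r c : ℕ) : Set Ω := net hρ (Un hρ r c) r

theorem cover {ρ : Ω → Ω → ℕ} (hρ : IsMet ρ) {D : ℕ} (hD : PacksM ρ D) (r : ℕ) (hr : 1 ≤ r)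
    (g : Ω) : ∃ c < D + 1, ∃ p ∈ Pn hρ r c, ρ p g < r := by
  classical
  by_contra hcon
  push Not at hcon
  have hU : ∀ c ≤ D + 1, g ∈ Un hρ r c := by
    intro c
    induction c with
    | zero => intro _; exact Set.mem_univ g
    | succ c ih => intro hc; exact ⟨ih (by omega), hcon c (by omega)⟩
  have hp : ∀ c : ℕ, ∃ p, c ≤ D → p ∈ Pn hρ r c ∧ ρ p g < 15 * r + 1 := by
    intro c
    by_cases hc : c ≤ D
    · obtain ⟨p, h1, h2⟩ := (net_spec hρ (Un hρ r c) r).2.2 g (hU c (by omega))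
      exact ⟨p, fun _ => ⟨h1, h2⟩⟩
    · exact ⟨g, fun h => absurd h hc⟩
  choose p hp using hp
  have hsep : ∀ c c', c < c' → c' ≤ D → r ≤ ρ (p c) (p c') := by
    intro c c' h h'
    have h1 : p c' ∈ Un hρ r c' := (net_spec hρ (Un hρ r c') r).1 (hp c' h').1
    have h2 : p c' ∈ Un hρ r (c + 1) := Un_anti hρ r h h1
    exact h2.2 (p c) (hp c (by omega)).1
  have hne : ∀ c ≤ D, ∀ c' ≤ D, c ≠ c' → r ≤ ρ (p c) (p c') := by
    intro c hc c' hc' h
    rcases lt_or_gt_of_ne h with h | h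
    · exact hsep c c' h hc'
    · rw [hρ.comm]; exact hsep c' c h hc
  have hinj : Set.InjOn p (Finset.range (D + 1) : Set ℕ) := by
    intro c hc c' hc' h
    simp only [Finset.coe_range, Set.mem_Iio] at hc hc'
    by_contra hcc
    have h1 := hne c (by omega) c' (by omega) hcc
    rw [h, rho_self hρ] at h1
    omega
  have hcard : ((Finset.range (D + 1)).image p).card = D + 1 := by
    rw [Finset.card_image_of_injOn hinj, Finset.card_range]
  have := hD r hr g ((Finset.range (D + 1)).image p) (by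
    intro q hq
    obtain ⟨c, hc, rfl⟩ := Finset.mem_image.1 hq
    rw [Finset.mem_range] at hc
    have h1 := (hp c (by omega)).2
    rw [hρ.comm] at h1
    omega) (by
    intro q hq q' hq' hqq
    obtain ⟨c, hc, rfl⟩ := Finset.mem_image.1 hq
    obtain ⟨c', hc', rfl⟩ := Finset.mem_image.1 hq'
    rw [Finset.mem_range] at hc hc'
    exact hne c (by omega) c' (by omega) (fun h => hqq (by rw [h])))
  omega

/-- The truncated distance to a net. -/
noncomputable def phi {ρ : Ω → Ω → ℕ} (hρ : IsMet ρ) (r c : ℕ) (g : Ω) : ℕ :=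
  sInf {t | t = 2 * r ∨ ∃ p ∈ Pn hρ r c, ρ p g = t}

theorem phi_mem {ρ : Ω → Ω → ℕ} (hρ : IsMet ρ) (r c : ℕ) (g : Ω) :
    phi hρ r c g = 2 * r ∨ ∃ p ∈ Pn hρ r c, ρ p g = phi hρ r c g :=
  Nat.sInf_mem (s := {t | t = 2 * r ∨ ∃ p ∈ Pn hρ r c, ρ p g = t}) ⟨2 * r, Or.inl rfl⟩

theorem phi_le {ρ : Ω → Ω → ℕ} (hρ : IsMet ρ) (r c : ℕ) (g : Ω) : phi hρ r c g ≤ 2 * r :=
  Nat.sInf_le (Or.inl rfl)

theorem phi_le' {ρ : Ω → Ω → ℕ} (hρ : IsMet ρ) (r c : ℕ) (g p : Ω) (hp : p ∈ Pn hρ r c) :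
    phi hρ r c g ≤ ρ p g :=
  Nat.sInf_le (Or.inr ⟨p, hp, rfl⟩)

theorem phi_lip {ρ : Ω → Ω → ℕ} (hρ : IsMet ρ) (r c : ℕ) (g h : Ω) :
    phi hρ r c h ≤ phi hρ r c g + ρ g h := by
  rcases phi_mem hρ r c g with h1 | ⟨p, hp, h1⟩
  · have := phi_le hρ r c h
    omega
  · have h2 := phi_le' hρ r c h p hp
    have h3 := hρ.tri p g h
    omega

theorem phi_abs {ρ : Ω → Ω → ℕ} (hρ : IsMet ρ) (r c : ℕ) (g h : Ω) :
    |(phi hρ r c h : ℝ) - phi hρ r c g| ≤ ρ g h := by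
  have h1 : (phi hρ r c h : ℝ) ≤ phi hρ r c g + ρ g h := by exact_mod_cast phi_lip hρ r c g h
  have h2 : (phi hρ r c g : ℝ) ≤ phi hρ r c h + ρ h g := by exact_mod_cast phi_lip hρ r c h g
  rw [hρ.comm h g] at h2
  rw [abs_le]
  constructor <;> linarith

/-- Separation at one scale. -/
theorem separate {ρ : Ω → Ω → ℕ} (hρ : IsMet ρ) {D : ℕ} (hD : PacksM ρ D) {g h : Ω} (hgh : g ≠ h) :
    ∃ j c : ℕ, c < D + 1 ∧ ρ g h ≤ 12 * 4 ^ j ∧
      phi hρ (4 ^ j) c g + 4 ^ j ≤ phi hρ (4 ^ j) c h := by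
  classical
  have hex : ∃ j, ρ g h ≤ 12 * 4 ^ j := by
    refine ⟨ρ g h, ?_⟩
    have : ρ g h < 4 ^ ρ g h := Nat.lt_pow_self (by norm_num)
    omega
  set j := Nat.find hex with hj
  have hj1 : ρ g h ≤ 12 * 4 ^ j := Nat.find_spec hex
  have hr : 1 ≤ 4 ^ j := Nat.one_le_pow _ _ (by norm_num)
  obtain ⟨c, hc, p, hp, hpg⟩ := cover hρ hD (4 ^ j) hr g
  refine ⟨j, c, hc, hj1, ?_⟩
  have hsep := (net_spec hρ (Un hρ (4 ^ j) c) (4 ^ j)).2.1
  have hg := phi_le' hρ (4 ^ j) c g p hp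
  rcases Nat.eq_zero_or_pos j with h0 | h0
  · rw [h0, pow_zero] at hpg hsep hj1 hg hp ⊢
    have hpg' : p = g := by
      by_contra hne
      have := rho_pos hρ hne
      omega
    rw [hpg', rho_self hρ] at hg
    have hh : phi hρ 1 c h ≠ 0 := by
      intro hz
      rcases phi_mem hρ 1 c h with h1 | ⟨q, hq, h1⟩
      · omega
      · rw [hz] at h1
        have hqh : q = h := by
          by_contra hne
          have := rho_pos hρ hne
          omega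
        have h2 := hsep g (hpg' ▸ hp) h (hqh ▸ hq) hgh
        omega
    omega
  · have h3 : 3 * 4 ^ j < ρ g h := by
      have h4 := Nat.find_min hex (show j - 1 < j by omega)
      have h5 : 12 * 4 ^ (j - 1) = 3 * 4 ^ j := by
        obtain ⟨i, hi⟩ : ∃ i, j = i + 1 := ⟨j - 1, by omega⟩
        rw [hi, Nat.add_sub_cancel, pow_succ]
        ring
      omega
    have hh : phi hρ (4 ^ j) c h = 2 * 4 ^ j := by
      rcases phi_mem hρ (4 ^ j) c h with h1 | ⟨q, hq, h1⟩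
      · exact h1
      · have h2 := phi_le hρ (4 ^ j) c h
        by_cases hqp : q = p
        · have h4 := hρ.tri g p h
          rw [hρ.comm g p, ← hqp] at h4
          rw [← hqp] at hpg
          omega
        · have h4 := hsep p hp q hq (Ne.symm hqp)
          have h5 := hρ.tri p g q
          have h6 := hρ.tri g h q
          rw [hρ.comm h q] at h6
          omega
    omega

/-- The analytic estimate. -/
theorem key (a : ℕ → ℝ) (x : ℝ) (k0 : ℕ) (hs : Summable a) (hx : 0 ≤ x)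
    (h0 : 32 ^ k0 * x ≤ a k0) (h1 : ∀ k < k0, |a k| ≤ 2 * 32 ^ k * x)
    (h2 : ∀ l : ℕ, |a (l + (k0 + 1))| ≤ 12 * (32 ^ k0 * x) * (1 / 32) ^ (l + 1)) :
    17 / 31 * (32 ^ k0 * x) ≤ ∑' k, a k := by
  have e := hs.sum_add_tsum_nat_add (k0 + 1)
  rw [Finset.sum_range_succ] at e
  have b1 : |∑ k ∈ Finset.range k0, a k| ≤ 2 / 31 * (32 ^ k0 * x) := by
    calc |∑ k ∈ Finset.range k0, a k| ≤ ∑ k ∈ Finset.range k0, |a k| :=
          Finset.abs_sum_le_sum_abs _ _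
      _ ≤ ∑ k ∈ Finset.range k0, 2 * 32 ^ k * x :=
          Finset.sum_le_sum fun k hk => h1 k (Finset.mem_range.1 hk)
      _ = 2 * x * ∑ k ∈ Finset.range k0, (32 : ℝ) ^ k := by
          rw [Finset.mul_sum]
          exact Finset.sum_congr rfl fun k _ => by ring
      _ = 2 * x * ((32 ^ k0 - 1) / (32 - 1)) := by rw [geom_sum_eq (by norm_num)]
      _ ≤ 2 / 31 * (32 ^ k0 * x) := by
          have : 2 * x * ((32 ^ k0 - 1) / (32 - 1)) = 2 / 31 * (32 ^ k0 * x) - 2 / 31 * x := by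
            ring
          rw [this]
          linarith
  have hg : HasSum (fun l : ℕ => 12 * (32 ^ k0 * x) * (1 / 32 : ℝ) ^ (l + 1))
      (12 * (32 ^ k0 * x) * (1 / 31)) := by
    have h3 := (hasSum_geometric_of_lt_one (r := (1 / 32 : ℝ)) (by norm_num) (by norm_num)).mul_left
      (12 * (32 ^ k0 * x) * (1 / 32))
    have e1 : (fun l : ℕ => 12 * (32 ^ k0 * x) * (1 / 32 : ℝ) ^ (l + 1))
        = fun l : ℕ => 12 * (32 ^ k0 * x) * (1 / 32) * (1 / 32 : ℝ) ^ l := by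
      funext l
      rw [pow_succ]
      ring
    have e2 : 12 * (32 ^ k0 * x) * (1 / 31) = 12 * (32 ^ k0 * x) * (1 / 32) * (1 - 1 / 32)⁻¹ := by
      have : (1 - 1 / 32 : ℝ)⁻¹ = 32 / 31 := by norm_num
      rw [this]
      ring
    rw [e1, e2]
    exact h3
  have b2 : |∑' l, a (l + (k0 + 1))| ≤ 12 * (32 ^ k0 * x) * (1 / 31) := by
    have h3 := tsum_of_norm_bounded hg (f := fun l => a (l + (k0 + 1))) (fun l => by
      rw [Real.norm_eq_abs]; exact h2 l)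
    rwa [Real.norm_eq_abs] at h3
  rw [← e]
  have := abs_le.1 b1
  have := abs_le.1 b2
  linarith

/-- The terms of the coordinate functions. -/
noncomputable def trm {ρ : Ω → Ω → ℕ} (hρ : IsMet ρ) (i c : ℕ) (g h : Ω) (k : ℕ) : ℝ :=
  (1 / 2 : ℝ) ^ (i + 5 * k) *
    ((phi hρ (4 ^ (i + 5 * k)) c h : ℝ) - phi hρ (4 ^ (i + 5 * k)) c g)

theorem trm_bound {ρ : Ω → Ω → ℕ} (hρ : IsMet ρ) (i c : ℕ) (g h : Ω) (k : ℕ) :
    ‖trm hρ i c g h k‖ ≤ ρ g h * (1 / 32 : ℝ) ^ k := by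
  unfold trm
  rw [norm_mul, Real.norm_eq_abs, Real.norm_eq_abs, abs_of_nonneg (by positivity), mul_comm]
  have h1 := phi_abs hρ (4 ^ (i + 5 * k)) c g h
  have h2 : (1 / 2 : ℝ) ^ (i + 5 * k) ≤ (1 / 32 : ℝ) ^ k := by
    rw [pow_add, pow_mul]
    norm_num
    have : ((1 : ℝ) / 2) ^ i ≤ 1 := pow_le_one₀ (by norm_num) (by norm_num)
    have h3 : (0 : ℝ) < (32 ^ k)⁻¹ := by positivity
    norm_num at this
    nlinarith
  exact mul_le_mul h1 h2 (by positivity) (by positivity)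

theorem trm_summable {ρ : Ω → Ω → ℕ} (hρ : IsMet ρ) (i c : ℕ) (g h : Ω) :
    Summable (trm hρ i c g h) :=
  Summable.of_norm_bounded (g := fun k => (ρ g h : ℝ) * (1 / 32 : ℝ) ^ k)
    ((summable_geometric_of_lt_one (by norm_num) (by norm_num)).mul_left _)
    (fun k => trm_bound hρ i c g h k)

/-- The coordinate functions. -/
noncomputable def F {ρ : Ω → Ω → ℕ} (hρ : IsMet ρ) (x₀ : Ω) (i c : ℕ) (g : Ω) : ℝ :=
  ∑' k, trm hρ i c x₀ g k

theorem F_sub {ρ : Ω → Ω → ℕ} (hρ : IsMet ρ) (x₀ : Ω) (i c : ℕ) (g h : Ω) :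
    F hρ x₀ i c h - F hρ x₀ i c g = ∑' k, trm hρ i c g h k := by
  unfold F
  rw [← (trm_summable hρ i c x₀ h).tsum_sub (trm_summable hρ i c x₀ g)]
  congr 1
  funext k
  unfold trm
  ring

theorem F_lip {ρ : Ω → Ω → ℕ} (hρ : IsMet ρ) (x₀ : Ω) (i c : ℕ) (g h : Ω) :
    |F hρ x₀ i c h - F hρ x₀ i c g| ≤ 2 * ρ g h := by
  rw [F_sub]
  have hg : HasSum (fun k : ℕ => (ρ g h : ℝ) * (1 / 32 : ℝ) ^ k) ((ρ g h : ℝ) * (1 - 1 / 32)⁻¹) :=
    (hasSum_geometric_of_lt_one (by norm_num) (by norm_num)).mul_left _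
  have h3 := tsum_of_norm_bounded hg (fun k => trm_bound hρ i c g h k)
  rw [Real.norm_eq_abs] at h3
  have h4 : (0 : ℝ) ≤ ρ g h := by positivity
  norm_num at h3
  linarith

theorem F_sep {ρ : Ω → Ω → ℕ} (hρ : IsMet ρ) (x₀ : Ω) {D : ℕ} (hD : PacksM ρ D) {g h : Ω} (hgh : g ≠ h) :
    ∃ i < 5, ∃ c < D + 1, 1 / 2 ≤ F hρ x₀ i c h - F hρ x₀ i c g := by
  obtain ⟨j, c, hc, hj, hsep⟩ := separate hρ hD hgh
  refine ⟨j % 5, Nat.mod_lt _ (by norm_num), c, hc, ?_⟩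
  set i := j % 5 with hi
  set k0 := j / 5 with hk0
  have hj5 : i + 5 * k0 = j := Nat.mod_add_div j 5
  rw [F_sub]
  have h32 : ∀ k : ℕ, (2 : ℝ) ^ (i + 5 * k) = 32 ^ k * 2 ^ i := by
    intro k
    rw [pow_add, pow_mul]
    norm_num
    ring
  have hw : ∀ k : ℕ, (1 / 2 : ℝ) ^ (i + 5 * k) * 4 ^ (i + 5 * k) = 32 ^ k * 2 ^ i := by
    intro k
    rw [← mul_pow, ← h32]
    norm_num
  have hk := key (trm hρ i c g h) (2 ^ i) k0 (trm_summable hρ i c g h) (by positivity) (by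
      unfold trm
      rw [hj5]
      have h1 : (phi hρ (4 ^ j) c g : ℝ) + 4 ^ j ≤ phi hρ (4 ^ j) c h := by exact_mod_cast hsep
      have h2 := hw k0
      rw [hj5] at h2
      rw [← h2]
      apply mul_le_mul_of_nonneg_left _ (by positivity)
      linarith) (by
      intro k _
      unfold trm
      rw [abs_mul, abs_of_nonneg (by positivity : (0 : ℝ) ≤ (1 / 2 : ℝ) ^ (i + 5 * k))]
      have h1 : (phi hρ (4 ^ (i + 5 * k)) c g : ℝ) ≤ 2 * 4 ^ (i + 5 * k) := by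
        exact_mod_cast phi_le hρ (4 ^ (i + 5 * k)) c g
      have h2 : (phi hρ (4 ^ (i + 5 * k)) c h : ℝ) ≤ 2 * 4 ^ (i + 5 * k) := by
        exact_mod_cast phi_le hρ (4 ^ (i + 5 * k)) c h
      have h3 : |(phi hρ (4 ^ (i + 5 * k)) c h : ℝ) - phi hρ (4 ^ (i + 5 * k)) c g|
          ≤ 2 * 4 ^ (i + 5 * k) := by
        rw [abs_le]
        constructor <;> linarith [Nat.cast_nonneg (α := ℝ) (phi hρ (4 ^ (i + 5 * k)) c g),
          Nat.cast_nonneg (α := ℝ) (phi hρ (4 ^ (i + 5 * k)) c h)]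
      calc (1 / 2 : ℝ) ^ (i + 5 * k) *
            |(phi hρ (4 ^ (i + 5 * k)) c h : ℝ) - phi hρ (4 ^ (i + 5 * k)) c g|
          ≤ (1 / 2 : ℝ) ^ (i + 5 * k) * (2 * 4 ^ (i + 5 * k)) :=
            mul_le_mul_of_nonneg_left h3 (by positivity)
        _ = 2 * ((1 / 2 : ℝ) ^ (i + 5 * k) * 4 ^ (i + 5 * k)) := by ring
        _ = 2 * 32 ^ k * 2 ^ i := by rw [hw]; ring) (by
      intro l
      unfold trm
      rw [abs_mul, abs_of_nonneg
        (by positivity : (0 : ℝ) ≤ (1 / 2 : ℝ) ^ (i + 5 * (l + (k0 + 1))))]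
      have h3 : |(phi hρ (4 ^ (i + 5 * (l + (k0 + 1)))) c h : ℝ)
          - phi hρ (4 ^ (i + 5 * (l + (k0 + 1)))) c g| ≤ 12 * 4 ^ j := by
        have h4 := phi_abs hρ (4 ^ (i + 5 * (l + (k0 + 1)))) c g h
        refine h4.trans ?_
        exact_mod_cast hj
      calc (1 / 2 : ℝ) ^ (i + 5 * (l + (k0 + 1))) *
            |(phi hρ (4 ^ (i + 5 * (l + (k0 + 1)))) c h : ℝ)
              - phi hρ (4 ^ (i + 5 * (l + (k0 + 1)))) c g|
          ≤ (1 / 2 : ℝ) ^ (i + 5 * (l + (k0 + 1))) * (12 * 4 ^ j) :=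
            mul_le_mul_of_nonneg_left h3 (by positivity)
        _ = 12 * (((1 / 2 : ℝ) ^ j * 4 ^ j)) * (1 / 32) ^ (l + 1) := by
            have e1 : i + 5 * (l + (k0 + 1)) = j + 5 * (l + 1) := by omega
            rw [e1, pow_add, pow_mul]
            norm_num
            ring
        _ = 12 * (32 ^ k0 * 2 ^ i) * (1 / 32) ^ (l + 1) := by
            have := hw k0
            rw [hj5] at this
            rw [this])
  have h1 : (1 : ℝ) ≤ 32 ^ k0 * 2 ^ i := by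
    have h2 : (1 : ℝ) ≤ 32 ^ k0 := one_le_pow₀ (by norm_num)
    have h3 : (1 : ℝ) ≤ 2 ^ i := one_le_pow₀ (by norm_num)
    nlinarith
  linarith

/-- **Assouad type embedding.** A discrete metric space with packing constant `D` maps
injectively into `ℤ^(5 (D + 1))` by a map with Lipschitz constant `5`. -/
theorem assM {ρ : Ω → Ω → ℕ} (hρ : IsMet ρ) {D : ℕ} (hD : PacksM ρ D) (x₀ : Ω) :
    ∃ f : Ω → Fin (5 * (D + 1)) → ℤ, Function.Injective f ∧
      ∀ (g h : Ω) (i : Fin (5 * (D + 1))), |f h i - f g i| ≤ 5 * ρ g h := by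
  refine ⟨fun g idx => ⌊2 * F hρ x₀ (finProdFinEquiv.symm idx).1 (finProdFinEquiv.symm idx).2 g⌋,
    ?_, ?_⟩
  · intro g h hgh
    by_contra hne
    obtain ⟨i, hi, c, hc, h1⟩ := F_sep hρ x₀ hD hne
    have h2 := congrFun hgh (finProdFinEquiv ((⟨i, hi⟩ : Fin 5), (⟨c, hc⟩ : Fin (D + 1))))
    simp only [Equiv.symm_apply_apply] at h2
    have h3 := Int.floor_le (2 * F hρ x₀ i c g)
    have h4 := Int.lt_floor_add_one (2 * F hρ x₀ i c g)
    have h5 := Int.floor_le (2 * F hρ x₀ i c h)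
    have h6 := Int.lt_floor_add_one (2 * F hρ x₀ i c h)
    rw [h2] at h4 h3
    linarith
  · intro g h idx
    simp only
    set i := ((finProdFinEquiv.symm idx).1 : ℕ)
    set c := ((finProdFinEquiv.symm idx).2 : ℕ)
    by_cases hh : g = h
    · rw [hh, sub_self, abs_zero]
      positivity
    · have h0 : 1 ≤ ρ g h := rho_pos hρ hh
      have h1 := F_lip hρ x₀ i c g h
      have h3 := Int.floor_le (2 * F hρ x₀ i c g)
      have h4 := Int.lt_floor_add_one (2 * F hρ x₀ i c g)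
      have h5 := Int.floor_le (2 * F hρ x₀ i c h)
      have h6 := Int.lt_floor_add_one (2 * F hρ x₀ i c h)
      have h7 := abs_le.1 h1
      have h8 : |((⌊2 * F hρ x₀ i c h⌋ - ⌊2 * F hρ x₀ i c g⌋ : ℤ) : ℝ)|
          ≤ ((5 * ρ g h : ℕ) : ℝ) := by
        push_cast
        have h9 : (1 : ℝ) ≤ ρ g h := by exact_mod_cast h0
        rw [abs_le]
        constructor <;> linarith
      exact_mod_cast h8

end AssM

end Pool.Agent.Y368.WB
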