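import Pool.Agent.Y368.WB.Stm

/-!
# WB-DIST: distorted elements of every degree in unitriangular matrices
(helper259, for project WB of helper368)
-/

set_option autoImplicit false

namespace Pool.Agent.Y368.WB.DistJ

open Matrix

/-- elementary unitriangular matrices -/
def E {m : ℕ} (i j : Fin (m + 1)) (h : i < j) (a : ℤ) : UT (m + 1) :=
  ⟨⟨transvection i j a, det_transvection_of_ne i j h.ne a⟩, by
    constructor
    · intro k
      show (1 + single i j a : Matrix (Fin (m + 1)) (Fin (m + 1)) ℤ) k k = 1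
      rw [Matrix.add_apply, one_apply_eq, single_apply, if_neg, add_zero]
      rintro ⟨rfl, rfl⟩
      exact lt_irrefl _ h
    · intro k l hkl
      show (1 + single i j a : Matrix (Fin (m + 1)) (Fin (m + 1)) ℤ) k l = 0
      rw [Matrix.add_apply, one_apply_ne hkl.ne', single_apply, if_neg, add_zero]
      rintro ⟨rfl, rfl⟩
      exact lt_asymm h hkl⟩

theorem ut_ext {n : ℕ} {x y : UT n}
    (h : (x.1 : Matrix (Fin n) (Fin n) ℤ) = (y.1 : Matrix (Fin n) (Fin n) ℤ)) : x = y :=
  Subtype.ext (Subtype.ext h)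

section

variable {m : ℕ} {i j l : Fin (m + 1)}

theorem coe_E (h : i < j) (a : ℤ) :
    ((E i j h a).1 : Matrix (Fin (m + 1)) (Fin (m + 1)) ℤ) = 1 + single i j a := rfl

theorem coe_mul' (x y : UT (m + 1)) :
    ((x * y).1 : Matrix (Fin (m + 1)) (Fin (m + 1)) ℤ) =
      (x.1 : Matrix (Fin (m + 1)) (Fin (m + 1)) ℤ) * (y.1 : Matrix (Fin (m + 1)) (Fin (m + 1)) ℤ) :=
  rfl

theorem E_mul (h : i < j) (a b : ℤ) : E i j h a * E i j h b = E i j h (a + b) := by
  apply ut_ext
  rw [coe_mul']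
  exact transvection_mul_transvection_same i j h.ne a b

theorem E_zero (h : i < j) : E i j h 0 = 1 := by
  apply ut_ext
  rw [coe_E, single_zero, add_zero]
  rfl

theorem E_inv (h : i < j) (a : ℤ) : (E i j h a)⁻¹ = E i j h (-a) := by
  rw [inv_eq_iff_mul_eq_one, E_mul, add_neg_cancel, E_zero]

theorem E_pow (h : i < j) (a : ℤ) (k : ℕ) : E i j h a ^ k = E i j h (k * a) := by
  induction k with
  | zero => rw [pow_zero, Nat.cast_zero, zero_mul, E_zero]
  | succ k ih =>
    rw [pow_succ, ih, E_mul]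
    congr 1
    push_cast
    ring

theorem comm_aux {R : Type*} [Ring R] (A B : R) (hAA : A * A = 0) (hBB : B * B = 0)
    (hBA : B * A = 0) : (1 + A) * (1 + B) * (1 - A) * (1 - B) = 1 + A * B := by
  have h1 : (1 + A) * (1 + B) * (1 - A) * (1 - B) = 1 + A * B - A * A - B * B - B * A
      + A * A * B + B * A * B - A * (B * A) - A * (B * B) + A * (B * A) * B := by
    noncomm_ring
  rw [h1, hAA, hBB, hBA]
  simp

theorem E_comm (h : i < j) (h' : j < l) (a b : ℤ) :
    E i j h a * E j l h' b * (E i j h a)⁻¹ * (E j l h' b)⁻¹ = E i l (h.trans h') (a * b) := by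
  rw [E_inv, E_inv]
  apply ut_ext
  rw [coe_mul', coe_mul', coe_mul', coe_E, coe_E, coe_E, coe_E, coe_E, ← single_neg, ← single_neg,
    ← sub_eq_add_neg, ← sub_eq_add_neg, comm_aux]
  · rw [single_mul_single_same]
  · rw [single_mul_single_of_ne]
    exact h.ne'
  · rw [single_mul_single_of_ne]
    exact h'.ne'
  · rw [single_mul_single_of_ne]
    exact (h.trans h').ne'

end

/-- words -/
def SW {G : Type} [Group G] (S : Set G) (g : G) (n : ℕ) : Prop :=
  ∃ w : List G, (∀ s ∈ w, s ∈ S ∨ s⁻¹ ∈ S) ∧ w.prod = g ∧ w.length = n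

section

variable {G : Type} [Group G] {S : Set G}

theorem sw_one : SW S 1 0 := ⟨[], by simp, by simp, by simp⟩

theorem sw_mem {g : G} (h : g ∈ S) : SW S g 1 := ⟨[g], by simpa using Or.inl h, by simp, by simp⟩

theorem sw_mul {g g' : G} {n n' : ℕ} (h : SW S g n) (h' : SW S g' n') : SW S (g * g') (n + n') := by
  obtain ⟨w, h1, h2, h3⟩ := h
  obtain ⟨w', h1', h2', h3'⟩ := h'
  refine ⟨w ++ w', ?_, ?_, ?_⟩
  · intro s hs
    rcases List.mem_append.1 hs with hs | hs
    · exact h1 s hs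
    · exact h1' s hs
  · rw [List.prod_append, h2, h2']
  · rw [List.length_append, h3, h3']

theorem sw_inv {g : G} {n : ℕ} (h : SW S g n) : SW S g⁻¹ n := by
  obtain ⟨w, h1, h2, h3⟩ := h
  refine ⟨(w.map (·⁻¹)).reverse, ?_, ?_, ?_⟩
  · intro s hs
    rw [List.mem_reverse, List.mem_map] at hs
    obtain ⟨t, ht, rfl⟩ := hs
    rw [inv_inv]
    exact (h1 t ht).symm
  · rw [← h2, List.prod_inv_reverse]
  · rw [List.length_reverse, List.length_map, h3]

theorem sw_pow {g : G} {n : ℕ} (h : SW S g n) (k : ℕ) : SW S (g ^ k) (k * n) := by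
  induction k with
  | zero =>
    rw [pow_zero, zero_mul]
    exact sw_one
  | succ k ih =>
    rw [pow_succ, Nat.succ_mul]
    exact sw_mul ih h

end

/-- roots -/
theorem root (d k : ℕ) (hk : 1 ≤ k) : ∃ b : ℕ, 1 ≤ b ∧ b ^ (d + 1) ≤ k ∧ k < (b + 1) ^ (d + 1) := by
  have hex : ∃ b : ℕ, k < (b + 1) ^ (d + 1) := by
    refine ⟨k, ?_⟩
    calc k < k + 1 := Nat.lt_succ_self k
      _ = (k + 1) ^ 1 := (pow_one _).symm
      _ ≤ (k + 1) ^ (d + 1) := Nat.pow_le_pow_right (Nat.succ_pos k) (by omega)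
  classical
  have h1 := Nat.find_spec hex
  have h2 : 1 ≤ Nat.find hex := by
    by_contra h
    have h0 : Nat.find hex = 0 := by omega
    rw [h0, zero_add, one_pow] at h1
    omega
  refine ⟨Nat.find hex, h2, ?_, h1⟩
  by_contra h
  push Not at h
  refine Nat.find_min hex (m := Nat.find hex - 1) (by omega) ?_
  rwa [Nat.sub_add_cancel h2]

/-- the generators -/
def gens (m : ℕ) : Set (UT (m + 1)) :=
  Set.range fun i : Fin m => E i.castSucc i.succ i.castSucc_lt_succ 1

theorem claim (m : ℕ) (j : ℕ) : ∀ (h0 : 0 < j) (h : j < m + 1), ∃ C : ℕ, 1 ≤ C ∧ ∀ k : ℕ, ∃ n : ℕ,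
    SW (gens m) (E (0 : Fin (m + 1)) ⟨j, h⟩ h0 (k : ℤ)) n ∧ n ^ j ≤ C * k := by
  induction j with
  | zero =>
    intro h0
    exact absurd h0 (lt_irrefl _)
  | succ j ih =>
    intro h0 h
    -- the generator from `j` to `j + 1`
    have hg : ∀ b : ℕ, SW (gens m) (E (⟨j, by omega⟩ : Fin (m + 1)) ⟨j + 1, h⟩
        (Nat.lt_succ_self j) (b : ℤ)) b := by
      intro b
      have h1 : SW (gens m) (E (⟨j, by omega⟩ : Fin (m + 1)) ⟨j + 1, h⟩
        (Nat.lt_succ_self j) 1) 1 := sw_mem ⟨⟨j, by omega⟩, rfl⟩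
      have h2 := sw_pow h1 b
      rw [E_pow, mul_one, mul_one] at h2
      exact h2
    rcases Nat.eq_zero_or_pos j with hj | hj
    · subst hj
      refine ⟨1, le_rfl, fun k => ⟨k, hg k, ?_⟩⟩
      rw [zero_add, pow_one, one_mul]
    · obtain ⟨C, hC1, hC⟩ := ih hj (by omega)
      obtain ⟨n0, hn0, -⟩ := hC 1
      have hcom : ∀ (a b : ℕ) (n : ℕ),
          SW (gens m) (E (0 : Fin (m + 1)) ⟨j, by omega⟩ hj (a : ℤ)) n →
          SW (gens m) (E (0 : Fin (m + 1)) ⟨j + 1, h⟩ h0 ((a * b : ℕ) : ℤ)) (n + b + n + b) := by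
        intro a b n hn
        have h1 := sw_mul (sw_mul (sw_mul hn (hg b)) (sw_inv hn)) (sw_inv (hg b))
        rw [E_comm] at h1
        rw [Nat.cast_mul]
        exact h1
      have hL := hcom 1 1 n0 hn0
      obtain ⟨L0, hL0⟩ : ∃ L0 : ℕ, L0 = n0 + 1 + n0 + 1 := ⟨_, rfl⟩
      rw [← hL0] at hL
      obtain ⟨M, hM⟩ : ∃ M : ℕ, M = 2 * (C * 2 ^ (j + 1)) + 2 + L0 := ⟨_, rfl⟩
      refine ⟨M ^ (j + 1), Nat.one_le_pow _ _ (by omega), fun k => ?_⟩
      rcases Nat.eq_zero_or_pos k with hk | hk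
      · refine ⟨0, ?_, ?_⟩
        · rw [hk, Nat.cast_zero, E_zero]
          exact sw_one
        · rw [zero_pow (Nat.succ_ne_zero j)]
          exact Nat.zero_le _
      · obtain ⟨b, hb1, hb2, hb3⟩ := root j k hk
        obtain ⟨n, hn, hnle⟩ := hC (k / b)
        have h1 := hcom (k / b) b n hn
        have h2 := sw_pow hL (k % b)
        rw [E_pow] at h2
        have h3 := sw_mul h1 h2
        rw [E_mul] at h3
        refine ⟨n + b + n + b + k % b * L0, ?_, ?_⟩
        · have e : (((k / b * b : ℕ) : ℤ) + ((k % b : ℕ) : ℤ) * ((1 * 1 : ℕ) : ℤ)) = (k : ℤ) := by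
            have e1 : k / b * b + k % b = k := by
              rw [mul_comm]
              exact Nat.div_add_mod k b
            rw [mul_one, Nat.cast_one, mul_one]
            exact_mod_cast e1
          rw [e] at h3
          exact h3
        · have hmod : k % b ≤ b := (Nat.mod_lt k hb1).le
          have ha : k / b ≤ 2 ^ (j + 1) * b ^ j := by
            have e1 : k / b * b ≤ k := Nat.div_mul_le_self k b
            have e2 : (b + 1) ^ (j + 1) ≤ (2 * b) ^ (j + 1) := Nat.pow_le_pow_left (by omega) _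
            have e3 : (2 * b) ^ (j + 1) = 2 ^ (j + 1) * b ^ j * b := by
              rw [mul_pow, pow_succ b j, mul_assoc]
            have e4 : k / b * b ≤ 2 ^ (j + 1) * b ^ j * b := by omega
            exact Nat.le_of_mul_le_mul_right e4 hb1
          have hna : n ≤ C * 2 ^ (j + 1) * b := by
            rw [← Nat.pow_le_pow_iff_left hj.ne']
            calc n ^ j ≤ C * (k / b) := hnle
              _ ≤ C * (2 ^ (j + 1) * b ^ j) := Nat.mul_le_mul_left C ha
              _ = (C * 2 ^ (j + 1)) * b ^ j := by ring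
              _ ≤ (C * 2 ^ (j + 1)) ^ j * b ^ j := by
                  refine Nat.mul_le_mul_right _ ?_
                  exact Nat.le_self_pow hj.ne' _
              _ = (C * 2 ^ (j + 1) * b) ^ j := (mul_pow _ _ _).symm
          have htot : n + b + n + b + k % b * L0 ≤ M * b := by
            have e1 : k % b * L0 ≤ b * L0 := Nat.mul_le_mul_right _ hmod
            have e2 : M * b = 2 * (C * 2 ^ (j + 1) * b) + 2 * b + b * L0 := by
              rw [hM]
              ring
            omega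
          calc (n + b + n + b + k % b * L0) ^ (j + 1) ≤ (M * b) ^ (j + 1) :=
                Nat.pow_le_pow_left htot _
            _ = M ^ (j + 1) * b ^ (j + 1) := mul_pow _ _ _
            _ ≤ M ^ (j + 1) * k := Nat.mul_le_mul_left _ hb2

theorem dist : DIST := by
  classical
  intro m hm
  have hlt : (0 : Fin (m + 1)) < ⟨m, Nat.lt_succ_self m⟩ := hm
  refine ⟨Finset.univ.image fun i : Fin m => E i.castSucc i.succ i.castSucc_lt_succ 1,
    E 0 ⟨m, Nat.lt_succ_self m⟩ hlt 1, ?_, ?_⟩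
  · intro k hk h
    rw [E_pow, mul_one] at h
    have h1 := congrArg (fun x : UT (m + 1) =>
      (x.1 : Matrix (Fin (m + 1)) (Fin (m + 1)) ℤ) 0 ⟨m, Nat.lt_succ_self m⟩) h
    have h2 : (1 + single (0 : Fin (m + 1)) ⟨m, Nat.lt_succ_self m⟩ (k : ℤ) :
        Matrix (Fin (m + 1)) (Fin (m + 1)) ℤ) 0 ⟨m, Nat.lt_succ_self m⟩ =
        (1 : Matrix (Fin (m + 1)) (Fin (m + 1)) ℤ) 0 ⟨m, Nat.lt_succ_self m⟩ := h1
    rw [Matrix.add_apply, single_apply_same, add_eq_left] at h2
    have h3 : k = 0 := by exact_mod_cast h2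
    omega
  · obtain ⟨C, -, hC⟩ := claim m m hm (Nat.lt_succ_self m)
    refine ⟨C, fun k => ?_⟩
    obtain ⟨n, ⟨w, h1, h2, h3⟩, hn⟩ := hC k
    refine ⟨w, ?_, ?_, ?_⟩
    · intro s hs
      have e : ((Finset.univ.image fun i : Fin m => E i.castSucc i.succ i.castSucc_lt_succ 1 :
          Finset (UT (m + 1))) : Set (UT (m + 1))) = gens m := by
        rw [Finset.coe_image, Finset.coe_univ, Set.image_univ]
        rfl
      rw [e]
      exact h1 s hs
    · rw [h2, E_pow, mul_one]
    · rw [h3]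
      exact hn

end Pool.Agent.Y368.WB.DistJ
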