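import Mathlib
import Pool.Agent.Y317.WB.LimCore

/-! Variant of `Pool.Agent.Y317.WB.lim_core` (by helper317) in which only the power `g ^ n!` has to
act nontrivially. -/

namespace Pool.Agent.Y368.WB.Lim2

open Pool.Agent.Y317.WB

theorem exists_orbit' {d : ℕ} {G : Type} [Group G] (ρ : G →* Equiv.Perm (Fin d → ℤ))
    (g : G) (n : ℕ) (hg : ρ (g ^ n.factorial) ≠ 1) :
    ∃ x : Fin d → ℤ, ∀ i ≤ n, ∀ j ≤ n, ρ (g ^ i) x = ρ (g ^ j) x → i = j := by
  by_contra hcon
  push Not at hcon
  have key : ∀ x : Fin d → ℤ, ρ (g ^ n.factorial) x = x := by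
    intro x
    obtain ⟨i, hi, j, hj, hij, hne⟩ := hcon x
    wlog hlt : i < j generalizing i j with H
    · exact H j hj i hi hij.symm (Ne.symm hne) (lt_of_le_of_ne (not_lt.1 hlt) (Ne.symm hne))
    have h1 : ρ (g ^ (j - i)) x = x := by
      have h2 : g ^ j = g ^ i * g ^ (j - i) := by
        rw [← pow_add]
        congr 1
        omega
      rw [h2, map_mul, Equiv.Perm.mul_apply] at hij
      exact ((ρ (g ^ i)).injective hij).symm
    obtain ⟨c, hc⟩ := Nat.dvd_factorial (show 0 < j - i by omega) (show j - i ≤ n by omega)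
    rw [hc, pow_mul, map_pow]
    exact Equiv.Perm.pow_apply_eq_self_of_apply_eq_self h1 c
  exact hg (Equiv.ext key)

theorem lim_core' (d : ℕ) (G : Type) [Group G] (S : Set G)
    (ρ : G →* Equiv.Perm (Fin d → ℤ)) (R : ℕ)
    (hS : ∀ s ∈ S, ∀ (u : Fin d → ℤ) (i : Fin d), |ρ s u i - u i| ≤ R)
    (g : G) (n : ℕ) (hg : ρ (g ^ n.factorial) ≠ 1) :
    ∃ k : ℕ, 1 ≤ k ∧ k ≤ n + 1 ∧ ∀ w : List G,
      (∀ s ∈ w, s ∈ S ∨ s⁻¹ ∈ S) → w.prod = g ^ k → n < (2 * R * w.length + 1) ^ d := by
  classical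
  by_contra hcon
  push Not at hcon
  obtain ⟨x, hx⟩ := exists_orbit' ρ g n hg
  choose! W hW using hcon
  have hn : 1 ≤ n := by
    have := (hW 1 le_rfl (by omega)).2.2
    have h2 : 0 < (2 * R * (W 1).length + 1) ^ d := by positivity
    omega
  obtain ⟨k₀, hk₀, hmax⟩ := Finset.exists_max_image (Finset.Icc 1 n) (fun k => (W k).length)
    ⟨1, Finset.mem_Icc.2 ⟨le_rfl, hn⟩⟩
  rw [Finset.mem_Icc] at hk₀
  have hL := (hW k₀ hk₀.1 (by omega)).2.2
  set L := (W k₀).length with hLdef
  have hbox : ∀ k ≤ n, ∀ i, |ρ (g ^ k) x i - x i| ≤ (R : ℤ) * L := by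
    intro k hk i
    rcases Nat.eq_zero_or_pos k with rfl | hk0
    · rw [pow_zero, map_one, Equiv.Perm.one_apply, sub_self, abs_zero]
      positivity
    · obtain ⟨h1, h2, -⟩ := hW k hk0 (by omega)
      have h3 := word_bound S ρ R hS (W k) h1 x i
      rw [h2] at h3
      refine h3.trans ?_
      have h4 : (W k).length ≤ L := hmax k (Finset.mem_Icc.2 ⟨hk0, hk⟩)
      have h5 : ((W k).length : ℤ) ≤ L := by exact_mod_cast h4
      exact mul_le_mul_of_nonneg_left h5 (by positivity)
  have hcard : (Finset.range (n + 1)).card ≤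
      (Fintype.piFinset fun i => Finset.Icc (x i - (R : ℤ) * L) (x i + (R : ℤ) * L)).card := by
    refine Finset.card_le_card_of_injOn (fun k => ρ (g ^ k) x) ?_ ?_
    · intro k hk
      have hk' : k ≤ n := by
        have := Finset.mem_range.1 (Finset.mem_coe.1 hk)
        omega
      refine Finset.mem_coe.2 (Fintype.mem_piFinset.2 fun i => ?_)
      have h1 := abs_le.1 (hbox k hk' i)
      exact Finset.mem_Icc.2 ⟨by linarith [h1.1], by linarith [h1.2]⟩
    · intro i hi j hj hij
      have hi' := Finset.mem_range.1 (Finset.mem_coe.1 hi)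
      have hj' := Finset.mem_range.1 (Finset.mem_coe.1 hj)
      exact hx i (by omega) j (by omega) hij
  have hcard2 : (Fintype.piFinset fun i => Finset.Icc (x i - (R : ℤ) * L)
      (x i + (R : ℤ) * L)).card = (2 * R * L + 1) ^ d := by
    rw [Fintype.card_piFinset]
    have : ∀ i : Fin d, (Finset.Icc (x i - (R : ℤ) * L) (x i + (R : ℤ) * L)).card =
        2 * R * L + 1 := by
      intro i
      rw [Int.card_Icc]
      have : x i + (R : ℤ) * L + 1 - (x i - (R : ℤ) * L) = ((2 * R * L + 1 : ℕ) : ℤ) := by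
        push_cast
        ring
      rw [this, Int.toNat_natCast]
    rw [Finset.prod_congr rfl fun i _ => this i, Finset.prod_const, Finset.card_univ,
      Fintype.card_fin]
  rw [Finset.card_range, hcard2] at hcard
  omega

end Pool.Agent.Y368.WB.Lim2
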