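import Mathlib
import Pool.Agent.W718.Shift

/-!
Project WB (MP_2c2cb6_an, stronger form): groups of bounded displacement permutations of `ℤ^d`
and groups of polynomial growth inside automorphism groups of `ℤ^d`-subshifts.
-/

namespace Pool.Agent.Y368.WB

open Pool.Agent.W718 Pointwise

/-- A symmetric, subadditive, natural number valued length function on a group. -/
structure IsLength {G : Type} [Group G] (N : G → ℕ) : Prop where
  eq_zero : ∀ g, N g = 0 ↔ g = 1
  inv : ∀ g, N g⁻¹ = N g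
  mul : ∀ g h, N (g * h) ≤ N g + N h

/-- Packing bound: at every scale `r ≥ 1` there are at most `D` elements of length `≤ 16 r` with
mutual distances `≥ r`. -/
def Packs {G : Type} [Group G] (N : G → ℕ) (D : ℕ) : Prop :=
  ∀ r : ℕ, 1 ≤ r → ∀ P : Finset G, (∀ p ∈ P, N p ≤ 16 * r) →
    (∀ p ∈ P, ∀ q ∈ P, p ≠ q → r ≤ N (p⁻¹ * q)) → P.card ≤ D

/-- Assouad type embedding. -/
def ASS : Prop := ∀ (G : Type) [Group G] (N : G → ℕ) (D : ℕ), IsLength N → Packs N D →
  ∃ (d R : ℕ) (f : G → Fin d → ℤ), 2 ≤ d ∧ Function.Injective f ∧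
    ∀ (g h : G) (i : Fin d), |f (g * h) i - f g i| ≤ R * N h

/-- A permutation of `ℤ^d` of bounded displacement. -/
def BddDisp {d : ℕ} (σ : Equiv.Perm (Fin d → ℤ)) : Prop :=
  ∃ R : ℕ, ∀ (u : Fin d → ℤ) (i : Fin d), |σ u i - u i| ≤ R

/-- Every group generated by finitely many permutations of `ℤ^d` of bounded displacement embeds
into the automorphism group of a subshift of dimension `d`. -/
def PTR : Prop := ∀ (d : ℕ) (G : Type) [Group G] (S : Set G), S.Finite →
  Subgroup.closure S = ⊤ → ∀ ρ : G →* Equiv.Perm (Fin d → ℤ), Function.Injective ρ →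
  (∀ s ∈ S, BddDisp (ρ s)) →
  ∃ (k : ℕ) (X : Shift.Subshift d k), Shift.EmbedsInAut G X

/-- A finite symmetric generating set with doubling balls gives a length function with a packing
bound. -/
def WORD : Prop := ∀ (G : Type) [Group G] (S : Set G), S.Finite → 1 ∈ S → (∀ s ∈ S, s⁻¹ ∈ S) →
  Subgroup.closure S = ⊤ → ∀ C : ℕ, (∀ n : ℕ, 1 ≤ n → (S ^ (2 * n)).ncard ≤ C * (S ^ n).ncard) →
  ∃ (N : G → ℕ) (D : ℕ), IsLength N ∧ Packs N D

/-- The group of upper unitriangular integer `n × n` matrices. -/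
def UT (n : ℕ) : Subgroup (Matrix.SpecialLinearGroup (Fin n) ℤ) where
  carrier := {A | (∀ i, A i i = 1) ∧ ∀ i j, j < i → A i j = 0}
  one_mem' := ⟨fun i => by simp, fun i j h => by simp [h.ne']⟩
  mul_mem' := by
    rintro A B ⟨hA, hA'⟩ ⟨hB, hB'⟩
    have h1 : Matrix.BlockTriangular (A : Matrix (Fin n) (Fin n) ℤ) id := fun i j h => hA' i j h
    have h2 : Matrix.BlockTriangular (B : Matrix (Fin n) (Fin n) ℤ) id := fun i j h => hB' i j h
    refine ⟨fun i => ?_, fun i j h => ?_⟩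
    · rw [Matrix.SpecialLinearGroup.coe_mul, Matrix.mul_apply, Finset.sum_eq_single i]
      · rw [hA, hB, one_mul]
      · intro k _ hk
        rcases lt_or_gt_of_ne hk with h | h
        · rw [hA' i k h, zero_mul]
        · rw [hB' k i h, mul_zero]
      · simp
    · rw [Matrix.SpecialLinearGroup.coe_mul]
      exact (h1.mul h2) h
  inv_mem' := by
    rintro A ⟨hA, hA'⟩
    have h1 : Matrix.BlockTriangular (A : Matrix (Fin n) (Fin n) ℤ) id := fun i j h => hA' i j h
    have hdet : (A : Matrix (Fin n) (Fin n) ℤ).det = 1 := A.2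
    haveI : Invertible (A : Matrix (Fin n) (Fin n) ℤ) :=
      Matrix.invertibleOfIsUnitDet _ (by rw [hdet]; exact isUnit_one)
    have h2 := Matrix.blockTriangular_inv_of_blockTriangular h1
    have h3 : ((A⁻¹ : Matrix.SpecialLinearGroup (Fin n) ℤ) : Matrix (Fin n) (Fin n) ℤ)
        = (A : Matrix (Fin n) (Fin n) ℤ)⁻¹ := by
      rw [Matrix.SpecialLinearGroup.coe_inv, Matrix.inv_def, hdet]
      simp
    have h4 : ∀ i j, j < i → (A⁻¹ : Matrix.SpecialLinearGroup (Fin n) ℤ) i j = 0 := by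
      intro i j h
      rw [show (A⁻¹ : Matrix.SpecialLinearGroup (Fin n) ℤ) i j
        = ((A⁻¹ : Matrix.SpecialLinearGroup (Fin n) ℤ) : Matrix (Fin n) (Fin n) ℤ) i j from rfl, h3]
      exact h2 h
    refine ⟨fun i => ?_, h4⟩
    have h5 : (A * A⁻¹ : Matrix.SpecialLinearGroup (Fin n) ℤ) i i = 1 := by
      rw [mul_inv_cancel]; simp
    rw [Matrix.SpecialLinearGroup.coe_mul, Matrix.mul_apply, Finset.sum_eq_single i] at h5
    · rw [hA, one_mul] at h5
      exact h5
    · intro k _ hk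
      rcases lt_or_gt_of_ne hk with h | h
      · rw [hA' i k h, zero_mul]
      · rw [h4 k i h, mul_zero]
    · simp

/-- Integer unitriangular matrices have a length function with a packing bound. -/
def UTLEN : Prop := ∀ n : ℕ, ∃ (N : UT n → ℕ) (D : ℕ), IsLength N ∧ Packs N D

/-- `g` has infinite order and every power `g ^ k` is a product of at most `(C k) ^ (1 / m)`
elements of `S` and their inverses. -/
def DistortedBy {G : Type} [Group G] (S : Set G) (m : ℕ) (g : G) : Prop :=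
  (∀ k : ℕ, 1 ≤ k → g ^ k ≠ 1) ∧ ∃ C : ℕ, ∀ k : ℕ, ∃ w : List G,
    (∀ s ∈ w, s ∈ S ∨ s⁻¹ ∈ S) ∧ w.prod = g ^ k ∧ w.length ^ m ≤ C * k

/-- Unitriangular matrices contain elements distorted to any power. -/
def DIST : Prop := ∀ m : ℕ, 1 ≤ m → ∃ (S : Finset (UT (m + 1))) (g : UT (m + 1)),
  DistortedBy (S : Set (UT (m + 1))) m g

/-- Limit of the method: in a group of permutations of `ℤ^d` generated by permutations of
displacement at most `R`, an element of infinite order is at most distorted to the power `d`. -/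
def LIM : Prop := ∀ (d : ℕ) (G : Type) [Group G] (S : Set G)
  (ρ : G →* Equiv.Perm (Fin d → ℤ)), Function.Injective ρ → ∀ R : ℕ,
  (∀ s ∈ S, ∀ (u : Fin d → ℤ) (i : Fin d), |ρ s u i - u i| ≤ R) →
  ∀ g : G, (∀ k : ℕ, 1 ≤ k → g ^ k ≠ 1) → ∀ n : ℕ, ∃ k : ℕ, 1 ≤ k ∧ k ≤ n + 1 ∧ ∀ w : List G,
    (∀ s ∈ w, s ∈ S ∨ s⁻¹ ∈ S) → w.prod = g ^ k → n < (2 * R * w.length + 1) ^ d

end Pool.Agent.Y368.WB
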