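import Mathlib
import Pool.Agent.Y368.WB.Stm

namespace Pool.Agent.Y368.WB.Ptr

open Pool.Agent.Y368.WB Pool.Agent.W718 Pool.Agent.W718.Shift

section Construction

variable (d R : ℕ) (A : Type) [Fintype A] [DecidableEq A]

/-- Pointer symbols. -/
abbrev Pt : Type := A → Fin d → Fin (2 * R + 1)

/-- The size of the alphabet. -/
noncomputable def K : ℕ := Fintype.card (Pt d R A × Bool)

/-- Decoding of letters. -/
noncomputable def enc : Fin (K d R A) ≃ Pt d R A × Bool := (Fintype.equivFin _).symm

variable {d R A}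

/-- Follow the pointer `s` at the site `u`. -/
noncomputable def step (ω : (Fin d → ℤ) → Fin (K d R A)) (s : A) (u : Fin d → ℤ) :
    Fin d → ℤ :=
  fun i => u i + (((enc d R A (ω u)).1 s i : ℕ) : ℤ) - R

/-- Follow a word of pointers. -/
noncomputable def walk (ω : (Fin d → ℤ) → Fin (K d R A)) :
    List A → (Fin d → ℤ) → (Fin d → ℤ)
  | [], u => u
  | s :: w, u => walk ω w (step ω s u)

theorem walk_append (ω : (Fin d → ℤ) → Fin (K d R A)) (w w' : List A) :
    ∀ u, walk ω (w ++ w') u = walk ω w' (walk ω w u) := by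
  induction w with
  | nil => intro u; rfl
  | cons s w ih => intro u; exact ih _

variable {G : Type} [Group G]

/-- Evaluation of words. -/
def ev (φ : A → G) (w : List A) : G := (w.map φ).prod

variable (d R) in
/-- The configurations all of whose pointers satisfy the relations of the group. -/
def PX (φ : A → G) : Set ((Fin d → ℤ) → Fin (K d R A)) :=
  {ω | ∀ w w' : List A, ev φ w = ev φ w' → ∀ u, walk ω w u = walk ω w' u}

theorem step_shift (t : Fin d → ℤ) (ω : (Fin d → ℤ) → Fin (K d R A)) (s : A)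
    (u : Fin d → ℤ) : step (shift t ω) s u = step ω s (t + u) - t := by
  funext i
  show u i + (((enc d R A (ω (t + u))).1 s i : ℕ) : ℤ) - R
    = (t i + u i + (((enc d R A (ω (t + u))).1 s i : ℕ) : ℤ) - R) - t i
  ring

theorem walk_shift (t : Fin d → ℤ) (ω : (Fin d → ℤ) → Fin (K d R A)) (w : List A) :
    ∀ u : Fin d → ℤ, walk (shift t ω) w u = walk ω w (t + u) - t := by
  induction w with
  | nil => intro u; simp [walk]
  | cons s w ih =>
    intro u
    show walk (shift t ω) w (step (shift t ω) s u) = walk ω w (step ω s (t + u)) - t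
    rw [ih, step_shift, add_sub_cancel]

theorem PX_shift (φ : A → G) (t : Fin d → ℤ) (ω : (Fin d → ℤ) → Fin (K d R A))
    (h : ω ∈ PX d R φ) : shift t ω ∈ PX d R φ := by
  intro w w' hw u
  rw [walk_shift, walk_shift, h w w' hw]

theorem cont_step (s : A) (U : ((Fin d → ℤ) → Fin (K d R A)) → (Fin d → ℤ))
    (hU : Continuous U) : Continuous fun ω => step ω s (U ω) := by
  have h1 : Continuous fun ω : (Fin d → ℤ) → Fin (K d R A) => (ω (U ω), U ω) :=
    (cont_eval _ continuous_id U hU).prodMk hU
  have h2 : Continuous fun p : Fin (K d R A) × (Fin d → ℤ) =>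
      (fun i => p.2 i + (((enc d R A p.1).1 s i : ℕ) : ℤ) - R : Fin d → ℤ) :=
    continuous_of_discreteTopology
  exact h2.comp h1

theorem cont_walk (w : List A) :
    ∀ (U : ((Fin d → ℤ) → Fin (K d R A)) → (Fin d → ℤ)), Continuous U →
      Continuous fun ω => walk ω w (U ω) := by
  induction w with
  | nil => intro U hU; exact hU
  | cons s w ih =>
    intro U hU
    exact ih _ (cont_step s U hU)

theorem PX_closed (φ : A → G) : IsClosed (PX d R φ) := by
  have : PX d R φ = ⋂ w : List A, ⋂ w' : List A, ⋂ _ : ev φ w = ev φ w', ⋂ u : Fin d → ℤ,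
      {ω : (Fin d → ℤ) → Fin (K d R A) | walk ω w u = walk ω w' u} := by
    ext ω
    simp [PX]
  rw [this]
  refine isClosed_iInter fun w => isClosed_iInter fun w' => isClosed_iInter fun _ =>
    isClosed_iInter fun u => ?_
  exact isClosed_eq (cont_walk w _ continuous_const) (cont_walk w' _ continuous_const)

/-- Move the bits along a word of pointers. -/
noncomputable def actW (w : List A) (ω : (Fin d → ℤ) → Fin (K d R A)) :
    (Fin d → ℤ) → Fin (K d R A) :=
  fun u => (enc d R A).symm ((enc d R A (ω u)).1, (enc d R A (ω (walk ω w u))).2)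

theorem step_actW (w : List A) (ω : (Fin d → ℤ) → Fin (K d R A)) (s : A)
    (u : Fin d → ℤ) : step (actW w ω) s u = step ω s u := by
  funext i
  simp [step, actW]

theorem walk_actW (w : List A) (ω : (Fin d → ℤ) → Fin (K d R A)) (v : List A) :
    ∀ u : Fin d → ℤ, walk (actW w ω) v u = walk ω v u := by
  induction v with
  | nil => intro u; rfl
  | cons s v ih =>
    intro u
    show walk (actW w ω) v (step (actW w ω) s u) = walk ω v (step ω s u)
    rw [ih, step_actW]

theorem actW_mem (φ : A → G) (w : List A) (ω : (Fin d → ℤ) → Fin (K d R A))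
    (h : ω ∈ PX d R φ) : actW w ω ∈ PX d R φ := by
  intro v v' hv u
  rw [walk_actW, walk_actW, h v v' hv]

theorem actW_nil (ω : (Fin d → ℤ) → Fin (K d R A)) : actW [] ω = ω := by
  funext u
  simp [actW, walk]

theorem actW_append (w w' : List A) (ω : (Fin d → ℤ) → Fin (K d R A)) :
    actW w (actW w' ω) = actW (w ++ w') ω := by
  funext u
  have h : walk (actW w' ω) w u = walk ω w u := walk_actW w' ω w u
  simp only [actW] at h ⊢
  rw [h, walk_append]
  simp

theorem actW_congr (w w' : List A) (ω : (Fin d → ℤ) → Fin (K d R A))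
    (h : ∀ u, walk ω w u = walk ω w' u) : actW w ω = actW w' ω := by
  funext u
  simp only [actW, h]

theorem actW_shift (t : Fin d → ℤ) (w : List A) (ω : (Fin d → ℤ) → Fin (K d R A)) :
    actW w (shift t ω) = shift t (actW w ω) := by
  funext u
  simp only [actW, shift, walk_shift]
  have : t + (walk ω w (t + u) - t) = walk ω w (t + u) := add_sub_cancel _ _
  rw [this]

theorem actW_cont (w : List A) :
    Continuous (actW w : ((Fin d → ℤ) → Fin (K d R A)) → _) := by
  refine continuous_pi fun u => ?_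
  have h1 : Continuous fun ω : (Fin d → ℤ) → Fin (K d R A) => (ω u, ω (walk ω w u)) :=
    (continuous_apply u).prodMk (cont_eval _ continuous_id _ (cont_walk w _ continuous_const))
  have h2 : Continuous fun p : Fin (K d R A) × Fin (K d R A) =>
      (enc d R A).symm ((enc d R A p.1).1, (enc d R A p.2).2) := continuous_of_discreteTopology
  exact h2.comp h1

/-- The configuration of a permutation action of bounded displacement. -/
noncomputable def conf (τ : A → Equiv.Perm (Fin d → ℤ))
    (hτ : ∀ a u i, |τ a u i - u i| ≤ R) (β : (Fin d → ℤ) → Bool) :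
    (Fin d → ℤ) → Fin (K d R A) :=
  fun u => (enc d R A).symm (fun a i => ⟨(τ a u i - u i + R).toNat, by
    have := abs_le.mp (hτ a u i)
    omega⟩, β u)

theorem step_conf (τ : A → Equiv.Perm (Fin d → ℤ)) (hτ : ∀ a u i, |τ a u i - u i| ≤ R)
    (β : (Fin d → ℤ) → Bool) (a : A) (u : Fin d → ℤ) : step (conf τ hτ β) a u = τ a u := by
  funext i
  simp only [step, conf, Equiv.apply_symm_apply]
  have := abs_le.mp (hτ a u i)
  rw [Int.toNat_of_nonneg (by linarith)]
  ring

theorem walk_conf (φ : A → G) (ρ : G →* Equiv.Perm (Fin d → ℤ))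
    (hτ : ∀ a u i, |(ρ (φ a))⁻¹ u i - u i| ≤ (R : ℤ)) (β : (Fin d → ℤ) → Bool) (w : List A) :
    ∀ u, walk (conf (fun a => (ρ (φ a))⁻¹) hτ β) w u = (ρ (ev φ w))⁻¹ u := by
  induction w with
  | nil => intro u; simp [walk, ev]
  | cons a w ih =>
    intro u
    show walk (conf (fun a => (ρ (φ a))⁻¹) hτ β) w
      (step (conf (fun a => (ρ (φ a))⁻¹) hτ β) a u) = _
    rw [ih, step_conf]
    have : ev φ (a :: w) = φ a * ev φ w := by simp [ev]
    rw [this, map_mul, mul_inv_rev]
    rfl

theorem conf_mem (φ : A → G) (ρ : G →* Equiv.Perm (Fin d → ℤ))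
    (hτ : ∀ a u i, |(ρ (φ a))⁻¹ u i - u i| ≤ (R : ℤ)) (β : (Fin d → ℤ) → Bool) :
    conf (fun a => (ρ (φ a))⁻¹) hτ β ∈ PX d R φ := by
  intro w w' hw u
  rw [walk_conf, walk_conf, hw]

variable (d R) in
/-- The pointer subshift. -/
noncomputable def PS (φ : A → G) : Subshift d (K d R A) where
  carrier := PX d R φ
  nonempty := ⟨_, conf_mem (R := R) φ (1 : G →* Equiv.Perm (Fin d → ℤ)) (by simp) fun _ => false⟩
  isClosed := PX_closed φ
  shift_mem := PX_shift φ

/-- The homeomorphism attached to a pair of words with inverse values. -/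
noncomputable def homeo (φ : A → G) (w w' : List A) (h : ev φ w * ev φ w' = 1) :
    PX d R φ ≃ₜ PX d R φ where
  toFun ω := ⟨actW w ω.1, actW_mem _ _ _ ω.2⟩
  invFun ω := ⟨actW w' ω.1, actW_mem _ _ _ ω.2⟩
  left_inv := by
    intro ω
    apply Subtype.ext
    show actW w' (actW w ω.1) = ω.1
    rw [actW_append, actW_congr _ [] _ (ω.2 _ _ _), actW_nil]
    simp only [ev, List.map_append, List.prod_append, List.map_nil, List.prod_nil]
    exact mul_eq_one_comm.1 h
  right_inv := by
    intro ω
    apply Subtype.ext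
    show actW w (actW w' ω.1) = ω.1
    rw [actW_append, actW_congr _ [] _ (ω.2 _ _ _), actW_nil]
    simp only [ev, List.map_append, List.prod_append, List.map_nil, List.prod_nil]
    exact h
  continuous_toFun := ((actW_cont _).comp continuous_subtype_val).subtype_mk _
  continuous_invFun := ((actW_cont _).comp continuous_subtype_val).subtype_mk _

variable (d R) in
/-- The action of the group on the pointer subshift. -/
noncomputable def Phi (φ : A → G) (W : G → List A) (hW : ∀ g, ev φ (W g) = g) :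
    G →* Aut (PS d R φ) where
  toFun g := ⟨homeo φ (W g) (W g⁻¹) (by rw [hW, hW, mul_inv_cancel]), by
    intro u x y h
    show actW (W g) y.1 = shift u (actW (W g) x.1)
    rw [h, actW_shift]⟩
  map_one' := by
    apply Subtype.ext
    apply Homeomorph.ext
    intro ω
    apply Subtype.ext
    show actW (W 1) ω.1 = ω.1
    rw [actW_congr _ [] _ (ω.2 _ _ _), actW_nil]
    rw [hW]
    simp [ev]
  map_mul' g h := by
    apply Subtype.ext
    apply Homeomorph.ext
    intro ω
    apply Subtype.ext
    show actW (W (g * h)) ω.1 = actW (W g) (actW (W h) ω.1)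
    rw [actW_append]
    refine actW_congr _ _ _ (ω.2 _ _ ?_)
    have : ev φ (W g ++ W h) = ev φ (W g) * ev φ (W h) := by simp [ev]
    rw [this, hW, hW, hW]

theorem Phi_injective (φ : A → G) (W : G → List A) (hW : ∀ g, ev φ (W g) = g)
    (ρ : G →* Equiv.Perm (Fin d → ℤ)) (hρ : Function.Injective ρ)
    (hτ : ∀ a u i, |(ρ (φ a))⁻¹ u i - u i| ≤ (R : ℤ)) :
    Function.Injective (Phi d R φ W hW) := by
  classical
  rw [injective_iff_map_eq_one]
  intro g hg
  apply (injective_iff_map_eq_one ρ).1 hρ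
  rw [← inv_eq_one]
  apply Equiv.ext
  intro u
  have h1 : ((Phi d R φ W hW g).1 ⟨_, conf_mem φ ρ hτ (fun v => decide (v = u))⟩).1
      = conf (fun a => (ρ (φ a))⁻¹) hτ (fun v => decide (v = u)) := by
    rw [hg]
    rfl
  have h2 : actW (W g) (conf (fun a => (ρ (φ a))⁻¹) hτ (fun v => decide (v = u)))
      = conf (fun a => (ρ (φ a))⁻¹) hτ (fun v => decide (v = u)) := h1
  have h3 := congrFun h2 u
  have h4 := congrArg (fun a => (enc d R A a).2) h3
  simp only [actW, Equiv.apply_symm_apply, walk_conf, hW] at h4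
  simp only [conf, Equiv.apply_symm_apply] at h4
  simpa using h4

end Construction

theorem ptr : PTR := by
  classical
  intro d G _ S hS hclo ρ hρ hb
  -- a common bound
  obtain ⟨R, hR⟩ : ∃ R : ℕ, ∀ s ∈ S, ∀ (u : Fin d → ℤ) (i : Fin d), |ρ s u i - u i| ≤ R := by
    have h1 : ∀ s : G, ∃ R : ℕ, s ∈ S → ∀ (u : Fin d → ℤ) (i : Fin d), |ρ s u i - u i| ≤ R := by
      intro s
      by_cases hs : s ∈ S
      · obtain ⟨R, hR⟩ := hb s hs
        exact ⟨R, fun _ => hR⟩
      · exact ⟨0, fun h => absurd h hs⟩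
    choose r hr using h1
    obtain ⟨R, hR⟩ := (hS.image r).bddAbove
    refine ⟨R, fun s hs u i => (hr s hs u i).trans ?_⟩
    exact_mod_cast hR (Set.mem_image_of_mem r hs)
  haveI : Fintype S := hS.fintype
  let φ : S × Bool → G := fun a => if a.2 then a.1.1 else a.1.1⁻¹
  have hτ : ∀ a u i, |(ρ (φ a))⁻¹ u i - u i| ≤ (R : ℤ) := by
    rintro ⟨s, b⟩ u i
    have hinv : |(ρ s.1)⁻¹ u i - u i| ≤ (R : ℤ) := by
      have := hR s.1 s.2 ((ρ s.1)⁻¹ u) i
      rw [show ρ s.1 ((ρ s.1)⁻¹ u) = u from (ρ s.1).apply_symm_apply u, abs_sub_comm] at this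
      exact this
    cases b
    · show |(ρ (s.1⁻¹))⁻¹ u i - u i| ≤ (R : ℤ)
      rw [map_inv, inv_inv]
      exact hR s.1 s.2 u i
    · exact hinv
  have hsurj : ∀ g : G, ∃ w : List (S × Bool), ev φ w = g := by
    intro g
    have hg : g ∈ Subgroup.closure S := by rw [hclo]; exact Subgroup.mem_top g
    induction hg using Subgroup.closure_induction with
    | mem x hx => exact ⟨[(⟨x, hx⟩, true)], by simp [ev, φ]⟩
    | one => exact ⟨[], by simp [ev]⟩
    | mul x y _ _ hx hy =>
      obtain ⟨w, hw⟩ := hx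
      obtain ⟨w', hw'⟩ := hy
      exact ⟨w ++ w', by rw [← hw, ← hw']; simp [ev]⟩
    | inv x _ hx =>
      obtain ⟨w, hw⟩ := hx
      refine ⟨(w.map fun a => (a.1, !a.2)).reverse, ?_⟩
      rw [← hw]
      simp only [ev, List.map_reverse, List.map_map, List.prod_inv_reverse]
      congr 2
      apply List.map_congr_left
      rintro ⟨s, b⟩ _
      cases b <;> simp [φ]
  choose W hW using hsurj
  exact ⟨_, PS d R φ, Phi d R φ W hW, Phi_injective φ W hW ρ hρ hτ⟩

end Pool.Agent.Y368.WB.Ptr
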