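import Mathlib
import Pool.Agent.W718.Shift

namespace Pool.Agent.Y368.WB

open Pool.Agent.W718

/-- A subshift is of finite type if it consists of all configurations whose patterns in a finite
window `F` (at all positions) belong to a set `P` of allowed patterns. -/
def IsSFT {d k : ℕ} (X : Shift.Subshift d k) : Prop :=
  ∃ (F : Finset (Fin d → ℤ)) (P : Set (F → Fin k)), ∀ x : Shift.Conf d k,
    x ∈ X.carrier ↔ ∀ u : Fin d → ℤ, (fun v : F => x (u + v.1)) ∈ P

namespace Sft

variable {d k : ℕ} {A : Type} (disp : Fin k → A → Fin d → ℤ)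

/-- Follow a pointer. -/
def gstep (x : (Fin d → ℤ) → Fin k) (a : A) (u : Fin d → ℤ) : Fin d → ℤ :=
  fun i => u i + disp (x u) a i

/-- Follow a word of pointers. -/
def gwalk (x : (Fin d → ℤ) → Fin k) : List A → (Fin d → ℤ) → (Fin d → ℤ)
  | [], u => u
  | a :: w, u => gwalk x w (gstep disp x a u)

theorem gwalk_shift (x : (Fin d → ℤ) → Fin k) (t : Fin d → ℤ) (w : List A) :
    ∀ u : Fin d → ℤ, gwalk disp (fun v => x (t + v)) w u = gwalk disp x w (t + u) - t := by
  induction w with
  | nil => intro u; simp [gwalk]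
  | cons a w ih =>
    intro u
    show gwalk disp (fun v => x (t + v)) w (gstep disp (fun v => x (t + v)) a u) =
      gwalk disp x w (gstep disp x a (t + u)) - t
    rw [ih]
    congr 2
    funext i
    simp only [gstep, Pi.add_apply]
    ring

theorem local_walk {R : ℕ} (hR : ∀ a s i, |disp a s i| ≤ R) (x y : (Fin d → ℤ) → Fin k)
    (w : List A) : ∀ (m : ℕ) (v : Fin d → ℤ), (∀ i, |v i| ≤ m) →
      (∀ v' : Fin d → ℤ, (∀ i, |v' i| ≤ (m : ℤ) + R * w.length) → x v' = y v') →
      gwalk disp x w v = gwalk disp y w v := by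
  induction w with
  | nil => intro m v _ _; rfl
  | cons a w ih =>
    intro m v hv hxy
    have h1 : x v = y v := hxy v fun i => (hv i).trans (by
      have : (0 : ℤ) ≤ R * (a :: w).length := by positivity
      linarith)
    have h2 : gstep disp x a v = gstep disp y a v := by
      unfold gstep
      rw [h1]
    show gwalk disp x w (gstep disp x a v) = gwalk disp y w (gstep disp y a v)
    rw [← h2]
    refine ih (m + R) _ (fun i => ?_) (fun v' hv' => hxy v' fun i => (hv' i).trans ?_)
    · have h3 := abs_add_le (v i) (disp (x v) a i)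
      have h4 := hv i
      have h5 := hR (x v) a i
      show |v i + disp (x v) a i| ≤ _
      push_cast
      linarith
    · simp only [List.length_cons]
      push_cast
      apply le_of_eq
      ring

theorem isSFT_of_rel {R : ℕ} (hR : ∀ a s i, |disp a s i| ≤ R) (X : Shift.Subshift d k)
    (Rel : Set (List A × List A)) (hfin : Rel.Finite)
    (hX : ∀ x, x ∈ X.carrier ↔ ∀ r ∈ Rel, ∀ u, gwalk disp x r.1 u = gwalk disp x r.2 u) :
    IsSFT X := by
  obtain ⟨L, hL⟩ : ∃ L : ℕ, ∀ r ∈ Rel, r.1.length ≤ L ∧ r.2.length ≤ L := by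
    obtain ⟨L, hL⟩ := (hfin.image fun r => r.1.length + r.2.length).bddAbove
    refine ⟨L, fun r hr => ?_⟩
    have := hL (Set.mem_image_of_mem _ hr)
    change r.1.length + r.2.length ≤ L at this
    omega
  let F : Finset (Fin d → ℤ) := Fintype.piFinset fun _ => Finset.Icc (-((R : ℤ) * L)) (R * L)
  have hF : ∀ v : Fin d → ℤ, v ∈ F ↔ ∀ i, |v i| ≤ (R : ℤ) * L := by
    intro v
    simp only [F, Fintype.mem_piFinset, Finset.mem_Icc, abs_le]
  have hloc : ∀ (x y : (Fin d → ℤ) → Fin k), (∀ v ∈ F, x v = y v) → ∀ w : List A,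
      w.length ≤ L → gwalk disp x w 0 = gwalk disp y w 0 := by
    intro x y hxy w hw
    refine local_walk disp hR x y w 0 0 (fun i => by simp) (fun v' hv' => hxy v' ?_)
    rw [hF]
    intro i
    refine (hv' i).trans ?_
    have : (w.length : ℤ) ≤ L := by exact_mod_cast hw
    have hR0 : (0 : ℤ) ≤ R := by positivity
    push_cast
    nlinarith
  refine ⟨F, {p | ∀ x : (Fin d → ℤ) → Fin k, (∀ v : F, x v.1 = p v) →
    ∀ r ∈ Rel, gwalk disp x r.1 0 = gwalk disp x r.2 0}, fun x => ?_⟩
  refine (hX x).trans ?_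
  constructor
  · intro h u y hy r hr
    have h1 : ∀ w : List A, w.length ≤ L →
        gwalk disp y w 0 = gwalk disp (fun v => x (u + v)) w 0 :=
      hloc y (fun v => x (u + v)) (fun v hv => hy ⟨v, hv⟩)
    rw [h1 r.1 (hL r hr).1, h1 r.2 (hL r hr).2, gwalk_shift, gwalk_shift, h r hr]
  · intro h r hr u
    have h1 := h u (fun v => x (u + v)) (fun v => rfl) r hr
    rw [gwalk_shift, gwalk_shift, add_zero] at h1
    exact sub_left_injective h1

end Sft

end Pool.Agent.Y368.WB
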