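import Mathlib
import Pool.Agent.Y368.WB.Ptr
import Pool.Agent.Y368.WB.Sft

namespace Pool.Agent.Y368.WB.Ptr

open Pool.Agent.Y368.WB Pool.Agent.W718 Pool.Agent.W718.Shift

section Construction

variable {d R : ℕ} {A : Type} [Fintype A] [DecidableEq A] {G : Type} [Group G]

theorem Phi_ne_one (φ : A → G) (W : G → List A) (hW : ∀ g, ev φ (W g) = g)
    (ρ : G →* Equiv.Perm (Fin d → ℤ))
    (hτ : ∀ a u i, |(ρ (φ a))⁻¹ u i - u i| ≤ (R : ℤ)) (g : G) (hρ : ρ g ≠ 1) :
    Phi d R φ W hW g ≠ 1 := by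
  classical
  intro hg
  apply hρ
  rw [← inv_eq_one]
  apply Equiv.ext
  intro u
  have h1 : ((Phi d R φ W hW g).1 ⟨_, conf_mem φ ρ hτ (fun v => decide (v = u))⟩).1
      = conf (fun a => (ρ (φ a))⁻¹) hτ (fun v => decide (v = u)) := by
    rw [hg]
    rfl
  have h2 : actW (W g) (conf (fun a => (ρ (φ a))⁻¹) hτ (fun v => decide (v = u)))
      = conf (fun a => (ρ (φ a))⁻¹) hτ (fun v => decide (v = u)) := h1
  have h3 := congrFun h2 u
  have h4 := congrArg (fun a => (enc d R A a).2) h3
  simp only [actW, Equiv.apply_symm_apply, walk_conf, hW] at h4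
  simp only [conf, Equiv.apply_symm_apply] at h4
  simpa using h4

variable (d R A) in
/-- The displacement of a pointer. -/
noncomputable def dsp (c : Fin (K d R A)) (a : A) (i : Fin d) : ℤ :=
  (((enc d R A c).1 a i : ℕ) : ℤ) - R

theorem dsp_le (c : Fin (K d R A)) (a : A) (i : Fin d) : |dsp d R A c a i| ≤ R := by
  unfold dsp
  have := ((enc d R A c).1 a i).2
  rw [abs_le]
  constructor <;> omega

theorem walk_eq (ω : (Fin d → ℤ) → Fin (K d R A)) (w : List A) :
    ∀ u, walk ω w u = Sft.gwalk (dsp d R A) ω w u := by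
  induction w with
  | nil => intro u; rfl
  | cons a w ih =>
    intro u
    show walk ω w (step ω a u) = Sft.gwalk (dsp d R A) ω w (Sft.gstep (dsp d R A) ω a u)
    rw [ih]
    congr 1
    funext i
    simp only [step, Sft.gstep, dsp]
    ring

end Construction

section Presented

variable {d R n : ℕ} {G : Type} [Group G] (Φ : FreeGroup (Fin n) →* G)

/-- The letters of a presentation. -/
def lt (a : Fin n × Bool) : G := Φ (FreeGroup.mk [a])

theorem ev_lt (w : List (Fin n × Bool)) : ev (lt Φ) w = Φ (FreeGroup.mk w) := by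
  induction w with
  | nil => simp [ev, ← FreeGroup.one_eq_mk]
  | cons a w ih =>
    have e : FreeGroup.mk (a :: w) = FreeGroup.mk [a] * FreeGroup.mk w := by
      rw [FreeGroup.mul_mk]; rfl
    rw [e, map_mul, ← ih]
    simp [ev, lt]

theorem mk_cancel (i : Fin n) (b : Bool) :
    FreeGroup.mk [(i, b), (i, !b)] = (1 : FreeGroup (Fin n)) := by
  rw [FreeGroup.one_eq_mk]
  exact Quot.sound (FreeGroup.Red.Step.not (L₁ := []) (L₂ := []))

theorem isSFT (T : Set (FreeGroup (Fin n))) (hT : T.Finite)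
    (hker : Subgroup.normalClosure T = Φ.ker) : IsSFT (PS d R (lt Φ)) := by
  classical
  let Rel : Set (List (Fin n × Bool) × List (Fin n × Bool)) :=
    (Set.range fun a : Fin n × Bool => ([(a.1, a.2), (a.1, !a.2)], [])) ∪
      (fun t => (t.toWord, [])) '' T
  refine Sft.isSFT_of_rel (dsp d R (Fin n × Bool)) (R := R) (fun c a i => dsp_le c a i) _ Rel
    ((Set.finite_range _).union (hT.image _)) (fun ω => ?_)
  show ω ∈ PX d R (lt Φ) ↔ _
  simp only [← walk_eq]
  constructor
  · intro h r hr u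
    refine h _ _ ?_ u
    rcases hr with ⟨⟨i, b⟩, rfl⟩ | ⟨t, ht, rfl⟩
    · show ev (lt Φ) [(i, b), (i, !b)] = ev (lt Φ) []
      rw [ev_lt, ev_lt, mk_cancel, FreeGroup.one_eq_mk]
    · show ev (lt Φ) t.toWord = ev (lt Φ) []
      rw [ev_lt, ev_lt, FreeGroup.mk_toWord, ← FreeGroup.one_eq_mk, map_one]
      have : t ∈ Φ.ker := by
        rw [← hker]
        exact Subgroup.subset_normalClosure ht
      exact this
  · intro h
    have hc : ∀ (i : Fin n) (b : Bool) (u : Fin d → ℤ),
        step ω (i, !b) (step ω (i, b) u) = u := by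
      intro i b u
      exact h ([(i, b), (i, !b)], []) (Or.inl ⟨(i, b), rfl⟩) u
    let θ : Fin n → Equiv.Perm (Fin d → ℤ) := fun i =>
      { toFun := step ω (i, false)
        invFun := step ω (i, true)
        left_inv := fun u => hc i false u
        right_inv := fun u => hc i true u }
    let Θ : FreeGroup (Fin n) →* Equiv.Perm (Fin d → ℤ) := FreeGroup.lift θ
    have hstep : ∀ (a : Fin n × Bool) (u : Fin d → ℤ), (Θ (FreeGroup.mk [a]))⁻¹ u = step ω a u := by
      rintro ⟨i, b⟩ u
      cases b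
      · have e : (FreeGroup.mk [(i, false)] : FreeGroup (Fin n)) = (FreeGroup.of i)⁻¹ := by
          rw [FreeGroup.of, FreeGroup.inv_mk]; rfl
        rw [e, map_inv, inv_inv]
        show (FreeGroup.lift θ (FreeGroup.of i)) u = _
        rw [FreeGroup.lift_apply_of]
        rfl
      · have e : (FreeGroup.mk [(i, true)] : FreeGroup (Fin n)) = FreeGroup.of i := rfl
        rw [e]
        show (FreeGroup.lift θ (FreeGroup.of i))⁻¹ u = _
        rw [FreeGroup.lift_apply_of]
        rfl
    have hwalk : ∀ (w : List (Fin n × Bool)) (u : Fin d → ℤ),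
        walk ω w u = (Θ (FreeGroup.mk w))⁻¹ u := by
      intro w
      induction w with
      | nil =>
        intro u
        rw [← FreeGroup.one_eq_mk, map_one]
        rfl
      | cons a w ih =>
        intro u
        have e : FreeGroup.mk (a :: w) = FreeGroup.mk [a] * FreeGroup.mk w := by
          rw [FreeGroup.mul_mk]; rfl
        show walk ω w (step ω a u) = _
        rw [ih, e, map_mul, mul_inv_rev, Equiv.Perm.mul_apply, hstep]
    have hTΘ : Subgroup.normalClosure T ≤ Θ.ker := by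
      apply Subgroup.normalClosure_le_normal
      intro t ht
      show Θ t = 1
      rw [← inv_eq_one]
      apply Equiv.ext
      intro u
      have h1 := h (t.toWord, []) (Or.inr ⟨t, ht, rfl⟩) u
      simp only [hwalk, FreeGroup.mk_toWord] at h1
      rw [h1, ← FreeGroup.one_eq_mk, map_one]
      rfl
    intro w w' hw u
    rw [ev_lt, ev_lt] at hw
    rw [hwalk, hwalk]
    have h2 : (FreeGroup.mk w)⁻¹ * FreeGroup.mk w' ∈ Θ.ker := by
      apply hTΘ
      rw [hker]
      show Φ ((FreeGroup.mk w)⁻¹ * FreeGroup.mk w') = 1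
      rw [map_mul, map_inv, hw, inv_mul_cancel]
    have h3 : Θ ((FreeGroup.mk w)⁻¹ * FreeGroup.mk w') = 1 := h2
    rw [map_mul, map_inv, inv_mul_eq_one] at h3
    rw [h3]

end Presented

/-- Uniform displacement bounds for all elements of the group. -/
theorem disp_bound {d : ℕ} {G : Type} [Group G] {S : Set G} (hclo : Subgroup.closure S = ⊤)
    (R : ℕ) (g : G) : ∃ L : ℕ, ∀ ρ : G →* Equiv.Perm (Fin d → ℤ),
      (∀ s ∈ S, ∀ (u : Fin d → ℤ) (i : Fin d), |ρ s u i - u i| ≤ R) →
      ∀ (u : Fin d → ℤ) (i : Fin d), |ρ g u i - u i| ≤ L := by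
  have hg : g ∈ Subgroup.closure S := by rw [hclo]; exact Subgroup.mem_top g
  induction hg using Subgroup.closure_induction with
  | mem x hx => exact ⟨R, fun ρ h => h x hx⟩
  | one => exact ⟨0, fun ρ _ u i => by simp⟩
  | mul x y _ _ hx hy =>
    obtain ⟨L, hL⟩ := hx
    obtain ⟨L', hL'⟩ := hy
    refine ⟨L + L', fun ρ h u i => ?_⟩
    have h1 := hL ρ h (ρ y u) i
    have h2 := hL' ρ h u i
    rw [map_mul, Equiv.Perm.mul_apply]
    have h3 := abs_add_le (ρ x (ρ y u) i - ρ y u i) (ρ y u i - u i)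
    have e : ρ x (ρ y u) i - ρ y u i + (ρ y u i - u i) = ρ x (ρ y u) i - u i := by ring
    rw [e] at h3
    push_cast
    linarith
  | inv x _ hx =>
    obtain ⟨L, hL⟩ := hx
    refine ⟨L, fun ρ h u i => ?_⟩
    have h1 := hL ρ h ((ρ x)⁻¹ u) i
    rw [show ρ x ((ρ x)⁻¹ u) = u from (ρ x).apply_symm_apply u, abs_sub_comm] at h1
    rw [map_inv]
    exact h1

/-- The general embedding theorem: a finitely generated group such that every nontrivial element
is detected by an action on `ℤ^d` in which the generators have displacement at most `R` embeds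
into the automorphism group of a subshift of dimension `d`, which is of finite type if the group
is finitely presented. -/
theorem ptr2 (d R : ℕ) (G : Type) [Group G] (S : Set G) (hS : S.Finite)
    (hclo : Subgroup.closure S = ⊤)
    (hres : ∀ g : G, g ≠ 1 → ∃ ρ : G →* Equiv.Perm (Fin d → ℤ),
      (∀ s ∈ S, ∀ (u : Fin d → ℤ) (i : Fin d), |ρ s u i - u i| ≤ R) ∧ ρ g ≠ 1) :
    ∃ (k : ℕ) (X : Shift.Subshift d k), Shift.EmbedsInAut G X ∧
      (Group.IsFinitelyPresented G → IsSFT X) := by
  classical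
  by_cases hfp : Group.IsFinitelyPresented G
  · obtain ⟨n, Φ, hsurj, T, hT, hker⟩ := hfp
    have hb : ∀ a : Fin n × Bool, ∃ L : ℕ, ∀ ρ : G →* Equiv.Perm (Fin d → ℤ),
        (∀ s ∈ S, ∀ (u : Fin d → ℤ) (i : Fin d), |ρ s u i - u i| ≤ R) →
        ∀ (u : Fin d → ℤ) (i : Fin d), |ρ (lt Φ a)⁻¹ u i - u i| ≤ L :=
      fun a => disp_bound hclo R _
    choose L hL using hb
    let R' := ∑ a, L a
    have hR' : ∀ a, L a ≤ R' := fun a =>
      Finset.single_le_sum (f := L) (fun _ _ => Nat.zero_le _) (Finset.mem_univ a)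
    have hWex : ∀ g : G, ∃ w : List (Fin n × Bool), ev (lt Φ) w = g := by
      intro g
      obtain ⟨x, rfl⟩ := hsurj g
      exact ⟨x.toWord, by rw [ev_lt, FreeGroup.mk_toWord]⟩
    choose W hW using hWex
    refine ⟨_, PS d R' (lt Φ), ⟨Phi d R' (lt Φ) W hW, ?_⟩, fun _ => isSFT Φ T hT hker⟩
    rw [injective_iff_map_eq_one]
    intro g hg
    by_contra hne
    obtain ⟨ρ, h1, h2⟩ := hres g hne
    refine Phi_ne_one (lt Φ) W hW ρ (R := R') (fun a u i => ?_) g h2 hg
    have h3 := hL a ρ h1 u i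
    rw [map_inv] at h3
    refine h3.trans ?_
    exact_mod_cast hR' a
  · have : Fintype S := hS.fintype
    let φ : S × Bool → G := fun a => if a.2 then a.1.1 else a.1.1⁻¹
    have hsurj : ∀ g : G, ∃ w : List (S × Bool), ev φ w = g := by
      intro g
      have hg : g ∈ Subgroup.closure S := by rw [hclo]; exact Subgroup.mem_top g
      induction hg using Subgroup.closure_induction with
      | mem x hx => exact ⟨[(⟨x, hx⟩, true)], by simp [ev, φ]⟩
      | one => exact ⟨[], by simp [ev]⟩
      | mul x y _ _ hx hy =>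
        obtain ⟨w, hw⟩ := hx
        obtain ⟨w', hw'⟩ := hy
        exact ⟨w ++ w', by rw [← hw, ← hw']; simp [ev]⟩
      | inv x _ hx =>
        obtain ⟨w, hw⟩ := hx
        refine ⟨(w.map fun a => (a.1, !a.2)).reverse, ?_⟩
        rw [← hw]
        simp only [ev, List.map_reverse, List.map_map, List.prod_inv_reverse]
        congr 2
        apply List.map_congr_left
        rintro ⟨s, b⟩ _
        cases b <;> simp [φ]
    choose W hW using hsurj
    refine ⟨_, PS d R φ, ⟨Phi d R φ W hW, ?_⟩, fun h => absurd h hfp⟩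
    rw [injective_iff_map_eq_one]
    intro g hg
    by_contra hne
    obtain ⟨ρ, h1, h2⟩ := hres g hne
    refine Phi_ne_one φ W hW ρ (R := R) ?_ g h2 hg
    rintro ⟨s, b⟩ u i
    have hinv : |(ρ s.1)⁻¹ u i - u i| ≤ (R : ℤ) := by
      have := h1 s.1 s.2 ((ρ s.1)⁻¹ u) i
      rw [show ρ s.1 ((ρ s.1)⁻¹ u) = u from (ρ s.1).apply_symm_apply u, abs_sub_comm] at this
      exact this
    cases b
    · show |(ρ (s.1⁻¹))⁻¹ u i - u i| ≤ (R : ℤ)
      rw [map_inv, inv_inv]
      exact h1 s.1 s.2 u i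
    · exact hinv

end Pool.Agent.Y368.WB.Ptr
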