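import Mathlib
import Pool.Agent.Y368.WB.Stm

/-!
Job WB-UT: integer unitriangular matrices have a length function with a packing bound.
-/

namespace Pool.Agent.Y368.WB.UTL

open Finset

variable {n : ℕ}

/-- The entries of a unitriangular matrix. -/
def ent (A : UT n) (i j : Fin n) : ℤ := (A.1 : Matrix (Fin n) (Fin n) ℤ) i j

lemma ent_diag (A : UT n) (i : Fin n) : ent A i i = 1 := A.2.1 i

lemma ent_lower (A : UT n) {i j : Fin n} (h : j < i) : ent A i j = 0 := A.2.2 i j h

lemma ent_mul (A B : UT n) (i j : Fin n) :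
    ent (A * B) i j = ∑ k, ent A i k * ent B k j := by
  unfold ent
  rw [Subgroup.coe_mul, Matrix.SpecialLinearGroup.coe_mul, Matrix.mul_apply]

lemma ent_one (i j : Fin n) : ent (1 : UT n) i j = if i = j then 1 else 0 := by
  unfold ent
  rw [Subgroup.coe_one, Matrix.SpecialLinearGroup.coe_one, Matrix.one_apply]

lemma ent_ext {A B : UT n} (h : ∀ i j, i < j → ent A i j = ent B i j) : A = B := by
  apply Subtype.ext
  apply Matrix.SpecialLinearGroup.ext
  intro i j
  change ent A i j = ent B i j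
  rcases lt_trichotomy i j with h1 | h1 | h1
  · exact h i j h1
  · subst h1
    rw [ent_diag, ent_diag]
  · rw [ent_lower A h1, ent_lower B h1]

/-- One half of the size bound. -/
def H (A : UT n) (r : ℕ) : Prop := ∀ i j : Fin n, i < j → |ent A i j| ≤ (r : ℤ) ^ (j.1 - i.1)

/-- The size bound for a matrix and its inverse. -/
def Q (A : UT n) (r : ℕ) : Prop := H A r ∧ H A⁻¹ r

lemma H.mono {A : UT n} {r s : ℕ} (h : H A r) (hrs : r ≤ s) : H A s := fun i j hij =>
  (h i j hij).trans (pow_le_pow_left₀ (by positivity) (by exact_mod_cast hrs) _)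

lemma H.le {A : UT n} {r : ℕ} (h : H A r) {i j : Fin n} (hij : i ≤ j) :
    |ent A i j| ≤ (r : ℤ) ^ (j.1 - i.1) := by
  rcases hij.lt_or_eq with h1 | h1
  · exact h i j h1
  · subst h1
    rw [ent_diag]
    simp

lemma sum_pow_le (r s : ℕ) (i j : Fin n) (hij : i ≤ j) :
    ∑ k : Fin n, (if i ≤ k ∧ k ≤ j then (r : ℤ) ^ (k.1 - i.1) * (s : ℤ) ^ (j.1 - k.1) else 0)
      ≤ ((r : ℤ) + s) ^ (j.1 - i.1) := by
  rw [← Finset.sum_filter, add_pow]
  have hinj : Set.InjOn (fun k : Fin n => k.1 - i.1)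
      (Finset.univ.filter (fun k : Fin n => i ≤ k ∧ k ≤ j) : Finset (Fin n)) := by
    intro a ha b hb hab
    simp only [Finset.coe_filter, Finset.mem_univ, true_and, Set.mem_ofPred_eq, Fin.le_def] at ha hb
    simp only at hab
    apply Fin.ext
    omega
  have h1 : ∑ k ∈ Finset.univ.filter (fun k : Fin n => i ≤ k ∧ k ≤ j),
      (r : ℤ) ^ (k.1 - i.1) * (s : ℤ) ^ (j.1 - k.1)
      = ∑ m ∈ (Finset.univ.filter (fun k : Fin n => i ≤ k ∧ k ≤ j)).image
        (fun k : Fin n => k.1 - i.1), (r : ℤ) ^ m * (s : ℤ) ^ (j.1 - i.1 - m) := by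
    rw [Finset.sum_image hinj]
    apply Finset.sum_congr rfl
    intro k hk
    simp only [Finset.mem_filter, Finset.mem_univ, true_and, Fin.le_def] at hk
    have : j.1 - i.1 - (k.1 - i.1) = j.1 - k.1 := by omega
    rw [this]
  rw [h1]
  have h2 : (Finset.univ.filter (fun k : Fin n => i ≤ k ∧ k ≤ j)).image
        (fun k : Fin n => k.1 - i.1) ⊆ Finset.range (j.1 - i.1 + 1) := by
    intro m hm
    rw [Finset.mem_image] at hm
    obtain ⟨k, hk, rfl⟩ := hm
    simp only [Finset.mem_filter, Finset.mem_univ, true_and, Fin.le_def] at hk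
    rw [Finset.mem_range]
    omega
  refine (Finset.sum_le_sum_of_subset_of_nonneg h2 (fun m _ _ => by positivity)).trans ?_
  apply Finset.sum_le_sum
  intro m hm
  rw [Finset.mem_range] at hm
  have h3 : (1 : ℤ) ≤ ((j.1 - i.1).choose m : ℤ) := by
    exact_mod_cast Nat.choose_pos (by omega)
  have h4 : (0 : ℤ) ≤ (r : ℤ) ^ m * (s : ℤ) ^ (j.1 - i.1 - m) := by positivity
  nlinarith

lemma H.mul {A B : UT n} {r s : ℕ} (hA : H A r) (hB : H B s) : H (A * B) (r + s) := by
  intro i j hij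
  rw [ent_mul]
  refine (Finset.abs_sum_le_sum_abs _ _).trans ?_
  have h := sum_pow_le r s i j hij.le
  push_cast
  refine le_trans (Finset.sum_le_sum fun k _ => ?_) h
  rw [abs_mul]
  split_ifs with hk
  · exact mul_le_mul (hA.le hk.1) (hB.le hk.2) (abs_nonneg _) (by positivity)
  · rw [not_and_or, not_le, not_le] at hk
    rcases hk with hk | hk
    · rw [ent_lower A hk]; simp
    · rw [ent_lower B hk]; simp

lemma Q.mono {A : UT n} {r s : ℕ} (h : Q A r) (hrs : r ≤ s) : Q A s :=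
  ⟨h.1.mono hrs, h.2.mono hrs⟩

lemma Q.mul {A B : UT n} {r s : ℕ} (hA : Q A r) (hB : Q B s) : Q (A * B) (r + s) := by
  refine ⟨hA.1.mul hB.1, ?_⟩
  rw [mul_inv_rev, add_comm]
  exact hB.2.mul hA.2

lemma Q.inv {A : UT n} {r : ℕ} (hA : Q A r) : Q A⁻¹ r := ⟨hA.2, by rw [inv_inv]; exact hA.1⟩

lemma exists_Q (A : UT n) : ∃ r, Q A r := by
  have key : ∀ B : UT n, ∃ r, H B r := by
    intro B
    refine ⟨∑ i, ∑ j, (ent B i j).natAbs, fun i j hij => ?_⟩
    have h1 : (ent B i j).natAbs ≤ ∑ i, ∑ j, (ent B i j).natAbs :=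
      (Finset.single_le_sum (f := fun j => (ent B i j).natAbs) (fun _ _ => Nat.zero_le _)
        (Finset.mem_univ j)).trans
      (Finset.single_le_sum (f := fun i => ∑ j, (ent B i j).natAbs) (fun _ _ => Nat.zero_le _)
        (Finset.mem_univ i))
    have h2 : j.1 - i.1 ≠ 0 := by
      have : i.1 < j.1 := hij
      omega
    have h3 := h1.trans (Nat.le_self_pow h2 (∑ i, ∑ j, (ent B i j).natAbs))
    rw [← Int.natCast_natAbs]
    exact_mod_cast h3
  obtain ⟨r, hr⟩ := key A
  obtain ⟨s, hs⟩ := key A⁻¹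
  exact ⟨r + s, hr.mono (by omega), hs.mono (by omega)⟩

/-- The length function. -/
noncomputable def N (A : UT n) : ℕ := sInf {r | Q A r}

lemma N_le_iff (A : UT n) (r : ℕ) : N A ≤ r ↔ Q A r := by
  constructor
  · intro h
    have h1 : N A ∈ {r | Q A r} := Nat.sInf_mem (exists_Q A)
    exact Q.mono h1 h
  · intro h
    exact Nat.sInf_le h

lemma isLength_N : IsLength (N : UT n → ℕ) where
  eq_zero := by
    intro g
    rw [← Nat.le_zero, N_le_iff]
    constructor
    · intro h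
      apply ent_ext
      intro i j hij
      have h1 := h.1 i j hij
      have h2 : j.1 - i.1 ≠ 0 := by
        have : i.1 < j.1 := hij
        omega
      rw [Nat.cast_zero, zero_pow h2] at h1
      rw [ent_one, if_neg hij.ne]
      exact abs_eq_zero.mp (le_antisymm h1 (abs_nonneg _))
    · rintro rfl
      have h1 : H (1 : UT n) 0 := by
        intro i j hij
        rw [ent_one, if_neg hij.ne]
        simp
      exact ⟨h1, by rw [inv_one]; exact h1⟩
  inv := by
    intro g
    apply le_antisymm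
    · rw [N_le_iff]
      exact ((N_le_iff g _).mp le_rfl).inv
    · rw [N_le_iff]
      have := ((N_le_iff g⁻¹ _).mp le_rfl).inv
      rwa [inv_inv] at this
  mul := by
    intro g h
    rw [N_le_iff]
    exact ((N_le_iff g _).mp le_rfl).mul ((N_le_iff h _).mp le_rfl)

/-- If `p` and `q` are close entrywise then `p⁻¹ q` is small. -/
lemma H_close {p q : UT n} {r : ℕ} (hr : 2 ≤ r) (hp : H p⁻¹ (16 * r))
    (hc : ∀ i j : Fin n, i < j →
      ((n * 32 ^ n + 1 : ℕ) : ℤ) * |ent q i j - ent p i j| ≤ (r : ℤ) ^ (j.1 - i.1)) :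
    H (p⁻¹ * q) (r - 1) := by
  intro i j hij
  have hij' : i.1 < j.1 := hij
  set M : ℤ := ((n * 32 ^ n + 1 : ℕ) : ℤ) with hM
  have hM0 : 0 < M := by rw [hM]; positivity
  have h1 : ent (p⁻¹ * q) i j = ∑ k, ent p⁻¹ i k * (ent q k j - ent p k j) := by
    have h2 : ∑ k, ent p⁻¹ i k * ent p k j = 0 := by
      rw [← ent_mul, inv_mul_cancel, ent_one, if_neg hij.ne]
    rw [ent_mul]
    simp only [mul_sub, Finset.sum_sub_distrib, h2, sub_zero]
  have h3 : ∀ k : Fin n, M * |ent p⁻¹ i k * (ent q k j - ent p k j)|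
      ≤ 16 ^ n * (r : ℤ) ^ (j.1 - i.1) := by
    intro k
    have hnn : (0 : ℤ) ≤ 16 ^ n * (r : ℤ) ^ (j.1 - i.1) := by positivity
    by_cases hk1 : k < i
    · rw [ent_lower _ hk1]
      simpa using hnn
    rw [not_lt] at hk1
    by_cases hk2 : k < j
    · have e1 := hp.le hk1
      have e2 := hc k j hk2
      have hk1' : i.1 ≤ k.1 := hk1
      have hk2' : k.1 < j.1 := hk2
      rw [abs_mul]
      calc M * (|ent p⁻¹ i k| * |ent q k j - ent p k j|)
          = |ent p⁻¹ i k| * (M * |ent q k j - ent p k j|) := by ring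
        _ ≤ ((16 * r : ℕ) : ℤ) ^ (k.1 - i.1) * (r : ℤ) ^ (j.1 - k.1) :=
            mul_le_mul e1 e2 (by positivity) (by positivity)
        _ = 16 ^ (k.1 - i.1) * ((r : ℤ) ^ (k.1 - i.1) * (r : ℤ) ^ (j.1 - k.1)) := by
            push_cast
            rw [mul_pow, mul_assoc]
        _ = 16 ^ (k.1 - i.1) * (r : ℤ) ^ (j.1 - i.1) := by
            rw [← pow_add]
            congr 2
            omega
        _ ≤ 16 ^ n * (r : ℤ) ^ (j.1 - i.1) := by
            apply mul_le_mul_of_nonneg_right _ (by positivity)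
            exact pow_le_pow_right₀ (by norm_num) (by have := k.2; omega)
    · rw [not_lt] at hk2
      have e3 : ent q k j - ent p k j = 0 := by
        rcases hk2.lt_or_eq with h | h
        · rw [ent_lower _ h, ent_lower _ h, sub_zero]
        · subst h
          rw [ent_diag, ent_diag, sub_self]
      rw [e3]
      simpa using hnn
  have h4 : M * |ent (p⁻¹ * q) i j| ≤ n * (16 ^ n * (r : ℤ) ^ (j.1 - i.1)) := by
    rw [h1]
    calc M * |∑ k, ent p⁻¹ i k * (ent q k j - ent p k j)|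
        ≤ M * ∑ k, |ent p⁻¹ i k * (ent q k j - ent p k j)| :=
          mul_le_mul_of_nonneg_left (Finset.abs_sum_le_sum_abs _ _) hM0.le
      _ = ∑ k, M * |ent p⁻¹ i k * (ent q k j - ent p k j)| := Finset.mul_sum _ _ _
      _ ≤ ∑ k : Fin n, 16 ^ n * (r : ℤ) ^ (j.1 - i.1) := Finset.sum_le_sum fun k _ => h3 k
      _ = n * (16 ^ n * (r : ℤ) ^ (j.1 - i.1)) := by
          rw [Finset.sum_const, Finset.card_univ, Fintype.card_fin, nsmul_eq_mul]
  have h5 : (r : ℤ) ^ (j.1 - i.1) ≤ 2 ^ n * ((r - 1 : ℕ) : ℤ) ^ (j.1 - i.1) := by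
    have e1 : (r : ℤ) ≤ 2 * ((r - 1 : ℕ) : ℤ) := by
      have : r ≤ 2 * (r - 1) := by omega
      exact_mod_cast this
    calc (r : ℤ) ^ (j.1 - i.1) ≤ (2 * ((r - 1 : ℕ) : ℤ)) ^ (j.1 - i.1) :=
          pow_le_pow_left₀ (by positivity) e1 _
      _ = 2 ^ (j.1 - i.1) * ((r - 1 : ℕ) : ℤ) ^ (j.1 - i.1) := mul_pow _ _ _
      _ ≤ 2 ^ n * ((r - 1 : ℕ) : ℤ) ^ (j.1 - i.1) := by
          apply mul_le_mul_of_nonneg_right _ (by positivity)
          exact pow_le_pow_right₀ (by norm_num) (by have := j.2; omega)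
  have h6 : M * |ent (p⁻¹ * q) i j| ≤ M * ((r - 1 : ℕ) : ℤ) ^ (j.1 - i.1) := by
    have e1 : (n : ℤ) * (16 ^ n * (r : ℤ) ^ (j.1 - i.1))
        ≤ n * (16 ^ n * (2 ^ n * ((r - 1 : ℕ) : ℤ) ^ (j.1 - i.1))) := by
      apply mul_le_mul_of_nonneg_left _ (by positivity)
      exact mul_le_mul_of_nonneg_left h5 (by positivity)
    have e2 : (n : ℤ) * (16 ^ n * (2 ^ n * ((r - 1 : ℕ) : ℤ) ^ (j.1 - i.1)))
        = (n * 32 ^ n) * ((r - 1 : ℕ) : ℤ) ^ (j.1 - i.1) := by
      have : (32 : ℤ) ^ n = 16 ^ n * 2 ^ n := by rw [← mul_pow]; norm_num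
      rw [this]
      ring
    have e3 : ((n : ℤ) * 32 ^ n) * ((r - 1 : ℕ) : ℤ) ^ (j.1 - i.1)
        ≤ M * ((r - 1 : ℕ) : ℤ) ^ (j.1 - i.1) := by
      apply mul_le_mul_of_nonneg_right _ (by positivity)
      rw [hM]
      push_cast
      linarith
    linarith
  exact le_of_mul_le_mul_left h6 hM0

lemma div_close {a b c : ℤ} (hc : 0 < c) (h : a / c = b / c) : |a - b| < c := by
  have h1 := Int.emod_add_mul_ediv a c
  have h2 := Int.emod_add_mul_ediv b c
  have h3 := Int.emod_nonneg a hc.ne'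
  have h4 := Int.emod_lt_of_pos a hc
  have h5 := Int.emod_nonneg b hc.ne'
  have h6 := Int.emod_lt_of_pos b hc
  rw [h] at h1
  rw [abs_lt]
  constructor <;> linarith

/-- The cell of a matrix at scale `r`. -/
def cell (r : ℕ) (p : UT n) (i j : Fin n) : ℤ :=
  if i < j then (((n * 32 ^ n + 1 : ℕ) : ℤ) * ent p i j) / (r : ℤ) ^ (j.1 - i.1) else 0

lemma cell_close {r : ℕ} (hr : 1 ≤ r) {p q : UT n} (h : cell r p = cell r q) (i j : Fin n)
    (hij : i < j) :
    ((n * 32 ^ n + 1 : ℕ) : ℤ) * |ent q i j - ent p i j| < (r : ℤ) ^ (j.1 - i.1) := by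
  have h1 := congrFun (congrFun h.symm i) j
  unfold cell at h1
  rw [if_pos hij, if_pos hij] at h1
  have h2 : (0 : ℤ) < (r : ℤ) ^ (j.1 - i.1) := by
    apply pow_pos
    exact_mod_cast hr
  have h3 := div_close h2 h1
  rw [← mul_sub, abs_mul, abs_of_nonneg (by positivity : (0 : ℤ) ≤ ((n * 32 ^ n + 1 : ℕ) : ℤ))] at h3
  exact h3

lemma cell_mem {r : ℕ} (hr : 1 ≤ r) {p : UT n} (hp : H p (16 * r)) (i j : Fin n) :
    cell r p i j ∈ Finset.Icc (-(((n * 32 ^ n + 1 : ℕ) : ℤ) * 16 ^ n))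
      (((n * 32 ^ n + 1 : ℕ) : ℤ) * 16 ^ n) := by
  unfold cell
  have hM0 : (0 : ℤ) < ((n * 32 ^ n + 1 : ℕ) : ℤ) := by positivity
  generalize ((n * 32 ^ n + 1 : ℕ) : ℤ) = M at hM0
  rw [Finset.mem_Icc]
  split_ifs with hij
  · have hij' : i.1 < j.1 := hij
    have h2 : (0 : ℤ) < (r : ℤ) ^ (j.1 - i.1) := by
      apply pow_pos
      exact_mod_cast hr
    have h3 : |M * ent p i j| ≤ (M * 16 ^ n) * (r : ℤ) ^ (j.1 - i.1) := by
      rw [abs_mul, abs_of_pos hM0, mul_assoc]
      apply mul_le_mul_of_nonneg_left _ hM0.le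
      refine (hp i j hij).trans ?_
      push_cast
      rw [mul_pow]
      apply mul_le_mul_of_nonneg_right _ h2.le
      exact pow_le_pow_right₀ (by norm_num) (by have := j.2; omega)
    rw [abs_le] at h3
    constructor
    · apply Int.le_ediv_of_mul_le h2
      linarith [h3.1]
    · apply Int.ediv_le_of_le_mul h2
      exact h3.2
  · constructor
    · have : (0 : ℤ) ≤ M * 16 ^ n := by positivity
      linarith
    · positivity

/-- The job: unitriangular integer matrices have a length function with a packing bound. -/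
theorem utlen : UTLEN := by
  intro n
  refine ⟨N, (Fintype.piFinset (fun _ : Fin n => Fintype.piFinset (fun _ : Fin n =>
    Finset.Icc (-(((n * 32 ^ n + 1 : ℕ) : ℤ) * 16 ^ n))
      (((n * 32 ^ n + 1 : ℕ) : ℤ) * 16 ^ n)))).card, isLength_N, ?_⟩
  intro r hr P hP hsep
  apply Finset.card_le_card_of_injOn (cell r)
  · intro p hp
    have h1 := (N_le_iff p _).mp (hP p hp)
    rw [Finset.mem_coe, Fintype.mem_piFinset]
    intro i
    rw [Fintype.mem_piFinset]
    intro j
    exact cell_mem hr h1.1 i j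
  · intro p hp q hq hpq
    by_contra hne
    have h0 := hsep p hp q hq hne
    have hc := cell_close hr hpq
    have hc' := cell_close hr hpq.symm
    rcases hr.lt_or_eq with h2 | h2
    · have hp1 := (N_le_iff p _).mp (hP p hp)
      have hq1 := (N_le_iff q _).mp (hP q hq)
      have h3 : Q (p⁻¹ * q) (r - 1) := by
        refine ⟨H_close h2 hp1.2 (fun i j hij => (hc i j hij).le), ?_⟩
        rw [mul_inv_rev, inv_inv]
        exact H_close h2 hq1.2 (fun i j hij => (hc' i j hij).le)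
      have h4 := (N_le_iff _ _).mpr h3
      omega
    · apply hne
      apply ent_ext
      intro i j hij
      have h3 := hc i j hij
      rw [← h2, Nat.cast_one, one_pow] at h3
      have h4 : |ent q i j - ent p i j| = 0 := by
        by_contra h5
        have h6 : 1 ≤ |ent q i j - ent p i j| :=
          Int.one_le_abs (fun h7 => h5 (by rw [h7, abs_zero]))
        have h7 : (1 : ℤ) ≤ ((n * 32 ^ n + 1 : ℕ) : ℤ) := by
          exact_mod_cast Nat.le_add_left 1 _
        nlinarith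
      rw [abs_eq_zero, sub_eq_zero] at h4
      exact h4.symm

end Pool.Agent.Y368.WB.UTL
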