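import Mathlib
import Pool.Agent.Y368.WB.Stm

namespace Pool.Agent.Y368.WB.Word

open Pool.Agent.Y368.WB Pointwise

variable {G : Type} [Group G]

theorem word : WORD := by
  classical
  intro G _ S hS h1 hsym hclo C hC
  have hmono : ∀ {m n : ℕ}, m ≤ n → S ^ m ⊆ S ^ n := fun {m n} h =>
    Set.pow_subset_pow_right h1 h
  have hfin : ∀ n : ℕ, (S ^ n).Finite := by
    intro n
    induction n with
    | zero => rw [pow_zero]; exact Set.finite_one
    | succ n ih => rw [pow_succ]; exact ih.mul hS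
  have hinvS : S⁻¹ = S := by
    ext x
    constructor
    · intro hx
      have := hsym _ (Set.mem_inv.1 hx)
      rwa [inv_inv] at this
    · intro hx
      exact Set.mem_inv.2 (hsym x hx)
  have hinv : ∀ n : ℕ, ∀ g ∈ S ^ n, g⁻¹ ∈ S ^ n := by
    intro n g hg
    have : (S ^ n)⁻¹ = S ^ n := by rw [← inv_pow, hinvS]
    rw [← this]
    exact Set.inv_mem_inv.2 hg
  have hmul : ∀ (m n : ℕ) (g h : G), g ∈ S ^ m → h ∈ S ^ n → g * h ∈ S ^ (m + n) := by
    intro m n g h hg hh
    rw [pow_add]
    exact Set.mul_mem_mul hg hh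
  have hex : ∀ g : G, ∃ n, g ∈ S ^ n := by
    intro g
    have hg : g ∈ Subgroup.closure S := by rw [hclo]; exact Subgroup.mem_top g
    induction hg using Subgroup.closure_induction with
    | mem x hx => exact ⟨1, by rwa [pow_one]⟩
    | one => exact ⟨0, by simp⟩
    | mul x y _ _ hx hy =>
      obtain ⟨m, hm⟩ := hx
      obtain ⟨n, hn⟩ := hy
      exact ⟨m + n, hmul m n x y hm hn⟩
    | inv x _ hx =>
      obtain ⟨m, hm⟩ := hx
      exact ⟨m, hinv m x hm⟩
  let N : G → ℕ := fun g => Nat.find (hex g)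
  have hN : ∀ g n, N g ≤ n ↔ g ∈ S ^ n := by
    intro g n
    constructor
    · intro h
      exact hmono h (Nat.find_spec (hex g))
    · intro h
      exact Nat.find_min' (hex g) h
  have hlen : IsLength N := by
    refine ⟨fun g => ?_, fun g => ?_, fun g h => ?_⟩
    · rw [← Nat.le_zero, hN, pow_zero, Set.mem_one]
    · apply le_antisymm
      · rw [hN]
        exact hinv _ _ ((hN g (N g)).1 le_rfl)
      · rw [hN]
        have := hinv _ _ ((hN g⁻¹ (N g⁻¹)).1 le_rfl)
        rwa [inv_inv] at this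
    · rw [hN]
      exact hmul _ _ _ _ ((hN g (N g)).1 le_rfl) ((hN h (N h)).1 le_rfl)
  refine ⟨N, max (S ^ 32).ncard (C ^ 7), hlen, ?_⟩
  intro r hr P hP hsep
  rcases Nat.lt_or_ge r 3 with h3 | h3
  · refine le_trans ?_ (le_max_left _ _)
    rw [← Set.ncard_coe_finset]
    apply Set.ncard_le_ncard _ (hfin 32)
    intro p hp
    exact (hN p 32).1 ((hP p hp).trans (by omega))
  · refine le_trans ?_ (le_max_right _ _)
    set s := (r - 1) / 2 with hs
    have hs1 : 1 ≤ s := by omega
    have hs2 : 2 * s < r := by omega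
    have hs3 : 16 * r + s ≤ 128 * s := by omega
    have hd : ∀ k : ℕ, (S ^ (2 ^ k * s)).ncard ≤ C ^ k * (S ^ s).ncard := by
      intro k
      induction k with
      | zero => simp
      | succ k ih =>
        have h4 : 1 ≤ 2 ^ k * s := Nat.mul_pos (by positivity) hs1
        have h5 := hC (2 ^ k * s) h4
        have e : 2 * (2 ^ k * s) = 2 ^ (k + 1) * s := by ring
        rw [e] at h5
        calc (S ^ (2 ^ (k + 1) * s)).ncard ≤ C * (S ^ (2 ^ k * s)).ncard := h5
          _ ≤ C * (C ^ k * (S ^ s).ncard) := Nat.mul_le_mul_left _ ih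
          _ = C ^ (k + 1) * (S ^ s).ncard := by ring
    have h7 := hd 7
    have hinj : Set.InjOn (fun x : G × G => x.1 * x.2)
        ((P : Set G) ×ˢ (S ^ s)) := by
      rintro ⟨p, x⟩ ⟨hp, hx⟩ ⟨q, y⟩ ⟨hq, hy⟩ hxy
      simp only at hp hx hq hy hxy
      have hpq : p = q := by
        by_contra hne
        have h8 := hsep p hp q hq hne
        have e : p⁻¹ * q = x * y⁻¹ := by
          have : q = p * x * y⁻¹ := by rw [hxy]; group
          rw [this]; group
        rw [e] at h8
        have h9 : N (x * y⁻¹) ≤ s + s := (hN _ _).2 (hmul _ _ _ _ hx (hinv _ _ hy))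
        omega
      subst hpq
      have : x = y := mul_left_cancel hxy
      rw [this]
    have hmaps : ∀ x ∈ (P : Set G) ×ˢ (S ^ s), (fun x : G × G => x.1 * x.2) x ∈ S ^ (128 * s) := by
      rintro ⟨p, x⟩ ⟨hp, hx⟩
      have h8 : p ∈ S ^ (16 * r) := (hN p _).1 (hP p hp)
      exact hmono hs3 (hmul _ _ _ _ h8 hx)
    have h10 := Set.ncard_le_ncard_of_injOn _ hmaps hinj (hfin _)
    rw [Set.ncard_prod, Set.ncard_coe_finset] at h10
    have h11 : 0 < (S ^ s).ncard := by
      rw [Set.ncard_pos (hfin s)]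
      exact ⟨1, hmono (Nat.zero_le s) (by simp)⟩
    have h12 : 2 ^ 7 * s = 128 * s := by norm_num
    rw [h12] at h7
    exact Nat.le_of_mul_le_mul_right (h10.trans h7) h11

end Pool.Agent.Y368.WB.Word
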