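import Mathlib
import Pool.Agent.W718.HeisEmbeds
import Pool.Agent.Y368.WB.Ptr2
import Pool.Agent.Y368.WB.AssM
import Pool.Agent.Y368.WB.Word
import Pool.Agent.Y368.WB.Lim2
import Pool.Agent.Y368.WB.Dist
import Pool.Agent.Y368.WB.UTLen

namespace Pool.Agent.Y368.WB.Main

open Pool.Agent.Y368.WB Pool.Agent.W718 Pool.Agent.W718.Shift Pointwise

/-! ### The pointer subshift of the Heisenberg group is of finite type -/

/-- The displacement of a pointer. -/
noncomputable def dspH (d R : ℕ) (c : Fin (Shift.K d R)) (a : Fin 4) (i : Fin d) : ℤ :=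
  (((Shift.enc d R c).1 a i : ℕ) : ℤ) - R

theorem walkH (d R : ℕ) (ω : (Fin d → ℤ) → Fin (Shift.K d R)) (w : List (Fin 4)) :
    ∀ u, Shift.walk ω w u = Sft.gwalk (dspH d R) ω w u := by
  induction w with
  | nil => intro u; rfl
  | cons a w ih =>
    intro u
    show Shift.walk ω w (Shift.step ω a u) =
      Sft.gwalk (dspH d R) ω w (Sft.gstep (dspH d R) ω a u)
    rw [ih]
    congr 1
    funext i
    simp only [Shift.step, Sft.gstep, dspH]
    ring

theorem heis_sft (d R : ℕ) : IsSFT (Shift.PS d R) := by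
  refine Sft.isSFT_of_rel (dspH d R) (R := R) (fun c a i => ?_) _ {r | r ∈ Shift.Rel}
    (List.finite_toSet _) (fun ω => ?_)
  · unfold dspH
    have := ((Shift.enc d R c).1 a i).2
    rw [abs_le]
    constructor <;> omega
  · show ω ∈ Shift.PX d R ↔ _
    simp only [← walkH]
    exact Iff.rfl

/-! ### From Lipschitz injections to permutations of the lattice -/

theorem perm_of_emb {G Ω : Type} [Group G] [MulAction G Ω] {d : ℕ} (f : Ω → Fin d → ℤ)
    (hf : Function.Injective f) (S : Set G) (R : ℕ)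
    (hR : ∀ s ∈ S, ∀ (x : Ω) (i : Fin d), |f (s • x) i - f x i| ≤ R) :
    ∃ ρ : G →* Equiv.Perm (Fin d → ℤ),
      (∀ s ∈ S, ∀ (u : Fin d → ℤ) (i : Fin d), |ρ s u i - u i| ≤ R) ∧
      ∀ (g : G) (x : Ω), g • x ≠ x → ρ g ≠ 1 := by
  let e : Ω ↪ (Fin d → ℤ) := ⟨f, hf⟩
  refine ⟨(Equiv.Perm.viaEmbeddingHom e).comp (MulAction.toPermHom G Ω), ?_, ?_⟩
  · intro s hs u i
    rw [MonoidHom.comp_apply, Equiv.Perm.viaEmbeddingHom_apply]
    by_cases hu : u ∈ Set.range e
    · obtain ⟨p, rfl⟩ := hu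
      rw [Equiv.Perm.viaEmbedding_apply]
      exact hR s hs p i
    · rw [Equiv.Perm.viaEmbedding_apply_of_notMem _ _ _ hu]
      simp
  · intro g x hx h
    rw [MonoidHom.comp_apply, Equiv.Perm.viaEmbeddingHom_apply] at h
    have h1 := congrArg (fun σ : Equiv.Perm (Fin d → ℤ) => σ (e x)) h
    simp only [Equiv.Perm.viaEmbedding_apply, Equiv.Perm.one_apply] at h1
    exact hx (e.injective h1)

/-- Groups all of whose nontrivial elements act nontrivially on spaces with a uniform packing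
bound, the generators having bounded displacement. -/
theorem schreier (D L : ℕ) (G : Type) [Group G] (S : Set G) (hS : S.Finite)
    (hclo : Subgroup.closure S = ⊤)
    (h : ∀ g : G, g ≠ 1 → ∃ (Ω : Type) (_ : MulAction G Ω) (ρ : Ω → Ω → ℕ), IsMet ρ ∧
      PacksM ρ D ∧ (∀ s ∈ S, ∀ x : Ω, ρ x (s • x) ≤ L) ∧ ∃ x : Ω, g • x ≠ x) :
    ∃ (k : ℕ) (X : Shift.Subshift (5 * (D + 1)) k), Shift.EmbedsInAut G X ∧
      (Group.IsFinitelyPresented G → IsSFT X) := by
  refine Ptr.ptr2 (5 * (D + 1)) (5 * L) G S hS hclo fun g hg => ?_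
  obtain ⟨Ω, _, ρ, h1, h2, h3, x, hx⟩ := h g hg
  obtain ⟨f, hf, hlip⟩ := AssM.assM h1 h2 x
  obtain ⟨ρ', h4, h5⟩ := perm_of_emb f hf S (5 * L) (fun s hs y i => by
    refine (hlip y (s • y) i).trans ?_
    have := h3 s hs y
    push_cast
    have h6 : (ρ y (s • y) : ℤ) ≤ L := by exact_mod_cast this
    linarith)
  exact ⟨ρ', h4, h5 g x hx⟩

/-- The action of a group on itself by right multiplications. -/
@[reducible] def rightAct (G : Type) [Group G] : MulAction G G where
  smul g x := x * g⁻¹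
  one_smul x := by
    show x * 1⁻¹ = x
    simp
  mul_smul g h x := by
    show x * (g * h)⁻¹ = x * h⁻¹ * g⁻¹
    rw [mul_inv_rev, mul_assoc]

theorem isMet_of_length {G : Type} [Group G] {N : G → ℕ} (hN : IsLength N) :
    IsMet (fun x y : G => N (x⁻¹ * y)) := by
  refine ⟨fun x y => ?_, fun x y => ?_, fun x y z => ?_⟩
  · rw [hN.eq_zero, inv_mul_eq_one]
  · rw [← hN.inv]
    congr 1
    group
  · have := hN.mul (x⁻¹ * y) (y⁻¹ * z)
    have e : x⁻¹ * y * (y⁻¹ * z) = x⁻¹ * z := by group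
    rwa [e] at this

theorem packsM_of_packs {G : Type} [Group G] {N : G → ℕ} {D : ℕ} (hD : Packs N D) :
    PacksM (fun x y : G => N (x⁻¹ * y)) D := by
  classical
  intro r hr x P h1 h2
  have h3 := hD r hr (P.image fun p => x⁻¹ * p) (by
    intro q hq
    obtain ⟨p, hp, rfl⟩ := Finset.mem_image.1 hq
    exact h1 p hp) (by
    intro q hq q' hq' hqq
    obtain ⟨p, hp, rfl⟩ := Finset.mem_image.1 hq
    obtain ⟨p', hp', rfl⟩ := Finset.mem_image.1 hq'
    have e : (x⁻¹ * p)⁻¹ * (x⁻¹ * p') = p⁻¹ * p' := by group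
    rw [e]
    exact h2 p hp p' hp' fun h => hqq (by rw [h]))
  rwa [Finset.card_image_of_injective _ (mul_right_injective x⁻¹)] at h3

/-- Groups with a length function with a packing bound. -/
theorem of_length (G : Type) [Group G] (N : G → ℕ) (D : ℕ) (hN : IsLength N) (hD : Packs N D)
    (S : Set G) (hS : S.Finite) (hclo : Subgroup.closure S = ⊤) :
    ∃ (d k : ℕ) (X : Shift.Subshift d k), 2 ≤ d ∧ Shift.EmbedsInAut G X ∧
      (Group.IsFinitelyPresented G → IsSFT X) := by
  obtain ⟨L, hL⟩ := (hS.image N).bddAbove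
  obtain ⟨k, X, h1, h2⟩ := schreier D L G S hS hclo fun g hg => by
    refine ⟨G, rightAct G, fun x y => N (x⁻¹ * y), isMet_of_length hN, packsM_of_packs hD, ?_, 1, ?_⟩
    · intro s hs x
      show N (x⁻¹ * (x * s⁻¹)) ≤ L
      rw [inv_mul_cancel_left, hN.inv]
      exact hL (Set.mem_image_of_mem N hs)
    · intro h
      have h' : (1 : G) * g⁻¹ = 1 := h
      rw [one_mul, inv_eq_one] at h'
      exact hg h'
  exact ⟨_, k, X, by omega, h1, h2⟩

/-- Finitely generated subgroups of the unitriangular groups. -/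
theorem of_ut (n : ℕ) (Γ : Subgroup (UT n)) (hΓ : Group.FG Γ) :
    ∃ (d k : ℕ) (X : Shift.Subshift d k), 2 ≤ d ∧ Shift.EmbedsInAut Γ X ∧
      (Group.IsFinitelyPresented Γ → IsSFT X) := by
  classical
  obtain ⟨N, D, hN, hD⟩ := UTL.utlen n
  obtain ⟨S, hS⟩ := Group.fg_def.1 hΓ
  refine of_length Γ (fun g => N g.1) D ⟨fun g => ?_, fun g => ?_, fun g h => ?_⟩ ?_ (S : Set Γ)
    S.finite_toSet hS
  · rw [hN.eq_zero]
    exact OneMemClass.coe_eq_one
  · show N ((g : UT n)⁻¹) = _
    exact hN.inv _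
  · exact hN.mul _ _
  · intro r hr P h1 h2
    have h3 := hD r hr (P.image fun p : Γ => (p : UT n)) (by
      intro q hq
      obtain ⟨p, hp, rfl⟩ := Finset.mem_image.1 hq
      exact h1 p hp) (by
      intro q hq q' hq' hqq
      obtain ⟨p, hp, rfl⟩ := Finset.mem_image.1 hq
      obtain ⟨p', hp', rfl⟩ := Finset.mem_image.1 hq'
      exact h2 p hp p' hp' fun h => hqq (by rw [h]))
    rwa [Finset.card_image_of_injective _ Subtype.val_injective] at h3

/-- Words lift to the subgroup generated. -/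
theorem lift_word {U : Type} [Group U] (S : Set U) (w : List U)
    (hw : ∀ s ∈ w, s ∈ S ∨ s⁻¹ ∈ S) : ∃ w' : List (Subgroup.closure S),
      List.map (Subgroup.closure S).subtype w' = w := by
  induction w with
  | nil => exact ⟨[], rfl⟩
  | cons a w ih =>
    obtain ⟨w', h⟩ := ih fun s hs => hw s (List.mem_cons_of_mem _ hs)
    have ha : a ∈ Subgroup.closure S := by
      rcases hw a List.mem_cons_self with h | h
      · exact Subgroup.subset_closure h
      · rw [← inv_inv a]
        exact (Subgroup.closure S).inv_mem (Subgroup.subset_closure h)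
    exact ⟨⟨a, ha⟩ :: w', by rw [List.map_cons, h]; rfl⟩

/-- Distorted elements of every degree. -/
theorem distorted (m : ℕ) (hm : 1 ≤ m) : ∃ (G : Type) (_ : Group G) (S : Set G) (g : G),
    S.Finite ∧ Subgroup.closure S = ⊤ ∧ DistortedBy S m g ∧
    ∃ (d k : ℕ) (X : Shift.Subshift d k), 2 ≤ d ∧ Shift.EmbedsInAut G X ∧
      (Group.IsFinitelyPresented G → IsSFT X) := by
  classical
  obtain ⟨S, g, hg1, C, hC⟩ := DistJ.dist m hm
  have hgS : g ∈ Subgroup.closure (S : Set (UT (m + 1))) := by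
    obtain ⟨w, h1, h2, _⟩ := hC 1
    obtain ⟨w', hw'⟩ := lift_word (S : Set (UT (m + 1))) w h1
    rw [pow_one] at h2
    rw [← h2, ← hw', ← map_list_prod]
    exact w'.prod.2
  have hfin : (((↑) : Subgroup.closure (S : Set (UT (m + 1))) → UT (m + 1)) ⁻¹'
      (S : Set (UT (m + 1)))).Finite :=
    S.finite_toSet.preimage Subtype.val_injective.injOn
  have hclo : Subgroup.closure (((↑) : Subgroup.closure (S : Set (UT (m + 1))) → UT (m + 1)) ⁻¹'
      (S : Set (UT (m + 1)))) = ⊤ := Subgroup.closure_closure_coe_preimage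
  refine ⟨Subgroup.closure (S : Set (UT (m + 1))), inferInstance,
    ((↑) : Subgroup.closure (S : Set (UT (m + 1))) → UT (m + 1)) ⁻¹' (S : Set (UT (m + 1))),
    ⟨g, hgS⟩, hfin, hclo, ⟨fun k hk h => ?_, C, fun k => ?_⟩, ?_⟩
  · exact hg1 k hk (congrArg Subtype.val h)
  · obtain ⟨w, h1, h2, h3⟩ := hC k
    obtain ⟨w', hw'⟩ := lift_word (S : Set (UT (m + 1))) w h1
    refine ⟨w', fun s hs => ?_, ?_, ?_⟩
    · have h4 : (s : UT (m + 1)) ∈ w := by
        rw [← hw']
        exact List.mem_map_of_mem (f := (Subgroup.closure (S : Set (UT (m + 1)))).subtype) hs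
      exact h1 _ h4
    · apply Subtype.ext
      show (Subgroup.closure (S : Set (UT (m + 1)))).subtype w'.prod = _
      rw [map_list_prod, hw', h2]
      rfl
    · have : w'.length = w.length := by rw [← hw', List.length_map]
      rw [this]
      exact h3
  · refine of_ut (m + 1) _ ?_
    exact Group.fg_iff.2 ⟨_, hclo, hfin⟩

end Pool.Agent.Y368.WB.Main
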