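import Mathlib
import Pool.Agent.Y368.WB.Stm

namespace Pool.Agent.Y368.WB.Ass

open Pool.Agent.Y368.WB

variable {G : Type} [Group G]

/-- The left invariant distance of a length function. -/
def rho (N : G → ℕ) (g h : G) : ℕ := N (g⁻¹ * h)

theorem rho_self {N : G → ℕ} (hN : IsLength N) (g : G) : rho N g g = 0 := by
  unfold rho
  rw [inv_mul_cancel, (hN.eq_zero 1).2 rfl]

theorem rho_pos {N : G → ℕ} (hN : IsLength N) {g h : G} (hgh : g ≠ h) : 1 ≤ rho N g h := by
  unfold rho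
  rw [Nat.one_le_iff_ne_zero, Ne, hN.eq_zero]
  intro h1
  exact hgh (by
    have := congrArg (fun x => g * x) h1
    simpa using this.symm)

theorem rho_comm {N : G → ℕ} (hN : IsLength N) (g h : G) : rho N g h = rho N h g := by
  unfold rho
  rw [← hN.inv (h⁻¹ * g)]
  congr 1
  group

theorem rho_tri {N : G → ℕ} (hN : IsLength N) (g h k : G) :
    rho N g k ≤ rho N g h + rho N h k := by
  unfold rho
  have := hN.mul (g⁻¹ * h) (h⁻¹ * k)
  have e : g⁻¹ * h * (h⁻¹ * k) = g⁻¹ * k := by group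
  rwa [e] at this

theorem rho_right {N : G → ℕ} (hN : IsLength N) (p g h : G) :
    rho N p (g * h) ≤ rho N p g + N h := by
  have := rho_tri hN p g (g * h)
  have e : rho N g (g * h) = N h := by
    unfold rho
    congr 1
    group
  rwa [e] at this

theorem rho_right' {N : G → ℕ} (hN : IsLength N) (p g h : G) :
    rho N p g ≤ rho N p (g * h) + N h := by
  have := rho_tri hN p (g * h) g
  have e : rho N (g * h) g = N h := by
    unfold rho
    rw [← hN.inv h]
    congr 1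
    group
  rwa [e] at this

/-- Maximal separated subsets. -/
theorem exists_net {N : G → ℕ} (hN : IsLength N) (U : Set G) (a : ℕ) (ha : 1 ≤ a) :
    ∃ P : Set G, P ⊆ U ∧ (∀ p ∈ P, ∀ q ∈ P, p ≠ q → a ≤ rho N p q) ∧
      ∀ g ∈ U, ∃ p ∈ P, rho N p g < a := by
  obtain ⟨P, hP⟩ := zorn_subset {P : Set G | P ⊆ U ∧ P.Pairwise fun p q => a ≤ rho N p q} (by
    intro c hc hchain
    refine ⟨⋃₀ c, ⟨Set.sUnion_subset fun s hs => (hc hs).1, ?_⟩, fun s hs => Set.subset_sUnion_of_mem hs⟩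
    rw [Set.pairwise_sUnion hchain.directedOn]
    exact fun s hs => (hc hs).2)
  refine ⟨P, hP.prop.1, fun p hp q hq h => hP.prop.2 hp hq h, fun g hg => ?_⟩
  by_contra hcon
  push Not at hcon
  have hgP : g ∉ P := fun h => by
    have := hcon g h
    rw [rho_self hN] at this
    omega
  have h1 : insert g P ∈ {P : Set G | P ⊆ U ∧ P.Pairwise fun p q => a ≤ rho N p q} := by
    refine ⟨Set.insert_subset hg hP.prop.1, ?_⟩
    intro p hp q hq hpq
    show a ≤ rho N p q
    rcases Set.mem_insert_iff.1 hp with hp' | hp'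
    · rcases Set.mem_insert_iff.1 hq with hq' | hq'
      · exact absurd (hp'.trans hq'.symm) hpq
      · rw [rho_comm hN, hp']
        exact hcon q hq'
    · rcases Set.mem_insert_iff.1 hq with hq' | hq'
      · rw [hq']
        exact hcon p hp'
      · exact hP.prop.2 hp' hq' hpq
  have h2 := hP.le_of_ge h1 (Set.subset_insert g P)
  exact hgP (h2 (Set.mem_insert g P))

/-- A chosen net. -/
noncomputable def net {N : G → ℕ} (hN : IsLength N) (U : Set G) (r : ℕ) : Set G :=
  Classical.choose (exists_net hN U (15 * r + 1) (by omega))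

theorem net_spec {N : G → ℕ} (hN : IsLength N) (U : Set G) (r : ℕ) :
    net hN U r ⊆ U ∧ (∀ p ∈ net hN U r, ∀ q ∈ net hN U r, p ≠ q → 15 * r + 1 ≤ rho N p q) ∧
      ∀ g ∈ U, ∃ p ∈ net hN U r, rho N p g < 15 * r + 1 :=
  Classical.choose_spec (exists_net hN U (15 * r + 1) (by omega))

/-- The part of the group which is not covered after `c` nets. -/
noncomputable def Un {N : G → ℕ} (hN : IsLength N) (r : ℕ) : ℕ → Set G
  | 0 => Set.univ
  | c + 1 => {g | g ∈ Un hN r c ∧ ∀ p ∈ net hN (Un hN r c) r, r ≤ rho N p g}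

theorem Un_anti {N : G → ℕ} (hN : IsLength N) (r : ℕ) {c c' : ℕ} (h : c ≤ c') :
    Un hN r c' ⊆ Un hN r c := by
  induction h with
  | refl => exact subset_rfl
  | step _ ih => exact fun g hg => ih hg.1

/-- The nets of scale `r`. -/
noncomputable def Pn {N : G → ℕ} (hN : IsLength N) (r c : ℕ) : Set G := net hN (Un hN r c) r

theorem cover {N : G → ℕ} (hN : IsLength N) {D : ℕ} (hD : Packs N D) (r : ℕ) (hr : 1 ≤ r)
    (g : G) : ∃ c < D + 1, ∃ p ∈ Pn hN r c, rho N p g < r := by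
  classical
  by_contra hcon
  push Not at hcon
  have hU : ∀ c ≤ D + 1, g ∈ Un hN r c := by
    intro c
    induction c with
    | zero => intro _; exact Set.mem_univ g
    | succ c ih => intro hc; exact ⟨ih (by omega), hcon c (by omega)⟩
  have hp : ∀ c : ℕ, ∃ p, c ≤ D → p ∈ Pn hN r c ∧ rho N p g < 15 * r + 1 := by
    intro c
    by_cases hc : c ≤ D
    · obtain ⟨p, h1, h2⟩ := (net_spec hN (Un hN r c) r).2.2 g (hU c (by omega))
      exact ⟨p, fun _ => ⟨h1, h2⟩⟩
    · exact ⟨1, fun h => absurd h hc⟩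
  choose p hp using hp
  have hsep : ∀ c c', c < c' → c' ≤ D → r ≤ rho N (p c) (p c') := by
    intro c c' h h'
    have h1 : p c' ∈ Un hN r c' := (net_spec hN (Un hN r c') r).1 (hp c' h').1
    have h2 : p c' ∈ Un hN r (c + 1) := Un_anti hN r h h1
    exact h2.2 (p c) (hp c (by omega)).1
  have hne : ∀ c ≤ D, ∀ c' ≤ D, c ≠ c' → r ≤ rho N (p c) (p c') := by
    intro c hc c' hc' h
    rcases lt_or_gt_of_ne h with h | h
    · exact hsep c c' h hc'
    · rw [rho_comm hN]; exact hsep c' c h hc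
  have hinj : Set.InjOn (fun c => g⁻¹ * p c) (Finset.range (D + 1) : Set ℕ) := by
    intro c hc c' hc' h
    simp only [Finset.coe_range, Set.mem_Iio] at hc hc'
    by_contra hcc
    have h1 := hne c (by omega) c' (by omega) hcc
    have h2 : p c = p c' := by simpa using h
    rw [h2, rho_self hN] at h1
    omega
  have hcard : ((Finset.range (D + 1)).image (fun c => g⁻¹ * p c)).card = D + 1 := by
    rw [Finset.card_image_of_injOn hinj, Finset.card_range]
  have := hD r hr ((Finset.range (D + 1)).image (fun c => g⁻¹ * p c)) (by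
    intro q hq
    obtain ⟨c, hc, rfl⟩ := Finset.mem_image.1 hq
    rw [Finset.mem_range] at hc
    have h1 := (hp c (by omega)).2
    rw [rho_comm hN] at h1
    unfold rho at h1
    omega) (by
    intro q hq q' hq' hqq
    obtain ⟨c, hc, rfl⟩ := Finset.mem_image.1 hq
    obtain ⟨c', hc', rfl⟩ := Finset.mem_image.1 hq'
    rw [Finset.mem_range] at hc hc'
    have h1 := hne c (by omega) c' (by omega) (fun h => hqq (by rw [h]))
    unfold rho at h1
    have e : (g⁻¹ * p c)⁻¹ * (g⁻¹ * p c') = (p c)⁻¹ * p c' := by group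
    rw [e]
    exact h1)
  omega

/-- The truncated distance to a net. -/
noncomputable def phi {N : G → ℕ} (hN : IsLength N) (r c : ℕ) (g : G) : ℕ :=
  sInf {t | t = 2 * r ∨ ∃ p ∈ Pn hN r c, rho N p g = t}

theorem phi_mem {N : G → ℕ} (hN : IsLength N) (r c : ℕ) (g : G) :
    phi hN r c g = 2 * r ∨ ∃ p ∈ Pn hN r c, rho N p g = phi hN r c g :=
  Nat.sInf_mem (s := {t | t = 2 * r ∨ ∃ p ∈ Pn hN r c, rho N p g = t}) ⟨2 * r, Or.inl rfl⟩

theorem phi_le {N : G → ℕ} (hN : IsLength N) (r c : ℕ) (g : G) : phi hN r c g ≤ 2 * r :=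
  Nat.sInf_le (Or.inl rfl)

theorem phi_le' {N : G → ℕ} (hN : IsLength N) (r c : ℕ) (g p : G) (hp : p ∈ Pn hN r c) :
    phi hN r c g ≤ rho N p g :=
  Nat.sInf_le (Or.inr ⟨p, hp, rfl⟩)

theorem phi_lip {N : G → ℕ} (hN : IsLength N) (r c : ℕ) (g h : G) :
    phi hN r c (g * h) ≤ phi hN r c g + N h := by
  rcases phi_mem hN r c g with h1 | ⟨p, hp, h1⟩
  · have := phi_le hN r c (g * h)
    omega
  · have h2 := phi_le' hN r c (g * h) p hp
    have h3 := rho_right hN p g h
    omega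

theorem phi_lip' {N : G → ℕ} (hN : IsLength N) (r c : ℕ) (g h : G) :
    phi hN r c g ≤ phi hN r c (g * h) + N h := by
  have := phi_lip hN r c (g * h) h⁻¹
  rw [mul_inv_cancel_right, hN.inv] at this
  exact this

theorem phi_abs {N : G → ℕ} (hN : IsLength N) (r c : ℕ) (g h : G) :
    |(phi hN r c (g * h) : ℝ) - phi hN r c g| ≤ N h := by
  have h1 : (phi hN r c (g * h) : ℝ) ≤ phi hN r c g + N h := by exact_mod_cast phi_lip hN r c g h
  have h2 : (phi hN r c g : ℝ) ≤ phi hN r c (g * h) + N h := by exact_mod_cast phi_lip' hN r c g h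
  rw [abs_le]
  constructor <;> linarith

/-- Separation at one scale. -/
theorem separate {N : G → ℕ} (hN : IsLength N) {D : ℕ} (hD : Packs N D) {g h : G} (hgh : g ≠ h) :
    ∃ j c : ℕ, c < D + 1 ∧ rho N g h ≤ 12 * 4 ^ j ∧
      phi hN (4 ^ j) c g + 4 ^ j ≤ phi hN (4 ^ j) c h := by
  classical
  have hex : ∃ j, rho N g h ≤ 12 * 4 ^ j := by
    refine ⟨rho N g h, ?_⟩
    have : rho N g h < 4 ^ rho N g h := Nat.lt_pow_self (by norm_num)
    omega
  set j := Nat.find hex with hj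
  have hj1 : rho N g h ≤ 12 * 4 ^ j := Nat.find_spec hex
  have hr : 1 ≤ 4 ^ j := Nat.one_le_pow _ _ (by norm_num)
  obtain ⟨c, hc, p, hp, hpg⟩ := cover hN hD (4 ^ j) hr g
  refine ⟨j, c, hc, hj1, ?_⟩
  have hsep := (net_spec hN (Un hN (4 ^ j) c) (4 ^ j)).2.1
  have hg := phi_le' hN (4 ^ j) c g p hp
  rcases Nat.eq_zero_or_pos j with h0 | h0
  · rw [h0, pow_zero] at hpg hsep hj1 hg hp ⊢
    have hpg' : p = g := by
      by_contra hne
      have := rho_pos hN hne
      omega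
    rw [hpg', rho_self hN] at hg
    have hh : phi hN 1 c h ≠ 0 := by
      intro hz
      rcases phi_mem hN 1 c h with h1 | ⟨q, hq, h1⟩
      · omega
      · rw [hz] at h1
        have hqh : q = h := by
          by_contra hne
          have := rho_pos hN hne
          omega
        have h2 := hsep g (hpg' ▸ hp) h (hqh ▸ hq) hgh
        omega
    omega
  · have h3 : 3 * 4 ^ j < rho N g h := by
      have h4 := Nat.find_min hex (show j - 1 < j by omega)
      have h5 : 12 * 4 ^ (j - 1) = 3 * 4 ^ j := by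
        obtain ⟨i, hi⟩ : ∃ i, j = i + 1 := ⟨j - 1, by omega⟩
        rw [hi, Nat.add_sub_cancel, pow_succ]
        ring
      omega
    have hh : phi hN (4 ^ j) c h = 2 * 4 ^ j := by
      rcases phi_mem hN (4 ^ j) c h with h1 | ⟨q, hq, h1⟩
      · exact h1
      · have h2 := phi_le hN (4 ^ j) c h
        by_cases hqp : q = p
        · have h4 := rho_tri hN g p h
          rw [rho_comm hN g p, ← hqp] at h4
          rw [← hqp] at hpg
          omega
        · have h4 := hsep p hp q hq (Ne.symm hqp)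
          have h5 := rho_tri hN p g q
          have h6 := rho_tri hN g h q
          rw [rho_comm hN h q] at h6
          omega
    omega

/-- The analytic estimate. -/
theorem key (a : ℕ → ℝ) (x : ℝ) (k0 : ℕ) (hs : Summable a) (hx : 0 ≤ x)
    (h0 : 32 ^ k0 * x ≤ a k0) (h1 : ∀ k < k0, |a k| ≤ 2 * 32 ^ k * x)
    (h2 : ∀ l : ℕ, |a (l + (k0 + 1))| ≤ 12 * (32 ^ k0 * x) * (1 / 32) ^ (l + 1)) :
    17 / 31 * (32 ^ k0 * x) ≤ ∑' k, a k := by
  have e := hs.sum_add_tsum_nat_add (k0 + 1)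
  rw [Finset.sum_range_succ] at e
  have b1 : |∑ k ∈ Finset.range k0, a k| ≤ 2 / 31 * (32 ^ k0 * x) := by
    calc |∑ k ∈ Finset.range k0, a k| ≤ ∑ k ∈ Finset.range k0, |a k| :=
          Finset.abs_sum_le_sum_abs _ _
      _ ≤ ∑ k ∈ Finset.range k0, 2 * 32 ^ k * x :=
          Finset.sum_le_sum fun k hk => h1 k (Finset.mem_range.1 hk)
      _ = 2 * x * ∑ k ∈ Finset.range k0, (32 : ℝ) ^ k := by
          rw [Finset.mul_sum]
          exact Finset.sum_congr rfl fun k _ => by ring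
      _ = 2 * x * ((32 ^ k0 - 1) / (32 - 1)) := by rw [geom_sum_eq (by norm_num)]
      _ ≤ 2 / 31 * (32 ^ k0 * x) := by
          have : 2 * x * ((32 ^ k0 - 1) / (32 - 1)) = 2 / 31 * (32 ^ k0 * x) - 2 / 31 * x := by
            ring
          rw [this]
          linarith
  have hg : HasSum (fun l : ℕ => 12 * (32 ^ k0 * x) * (1 / 32 : ℝ) ^ (l + 1))
      (12 * (32 ^ k0 * x) * (1 / 31)) := by
    have h3 := (hasSum_geometric_of_lt_one (r := (1 / 32 : ℝ)) (by norm_num) (by norm_num)).mul_left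
      (12 * (32 ^ k0 * x) * (1 / 32))
    have e1 : (fun l : ℕ => 12 * (32 ^ k0 * x) * (1 / 32 : ℝ) ^ (l + 1))
        = fun l : ℕ => 12 * (32 ^ k0 * x) * (1 / 32) * (1 / 32 : ℝ) ^ l := by
      funext l
      rw [pow_succ]
      ring
    have e2 : 12 * (32 ^ k0 * x) * (1 / 31) = 12 * (32 ^ k0 * x) * (1 / 32) * (1 - 1 / 32)⁻¹ := by
      have : (1 - 1 / 32 : ℝ)⁻¹ = 32 / 31 := by norm_num
      rw [this]
      ring
    rw [e1, e2]
    exact h3
  have b2 : |∑' l, a (l + (k0 + 1))| ≤ 12 * (32 ^ k0 * x) * (1 / 31) := by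
    have h3 := tsum_of_norm_bounded hg (f := fun l => a (l + (k0 + 1))) (fun l => by
      rw [Real.norm_eq_abs]; exact h2 l)
    rwa [Real.norm_eq_abs] at h3
  rw [← e]
  have := abs_le.1 b1
  have := abs_le.1 b2
  linarith

/-- The terms of the coordinate functions. -/
noncomputable def trm {N : G → ℕ} (hN : IsLength N) (i c : ℕ) (g h : G) (k : ℕ) : ℝ :=
  (1 / 2 : ℝ) ^ (i + 5 * k) *
    ((phi hN (4 ^ (i + 5 * k)) c h : ℝ) - phi hN (4 ^ (i + 5 * k)) c g)

theorem trm_bound {N : G → ℕ} (hN : IsLength N) (i c : ℕ) (g h : G) (k : ℕ) :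
    ‖trm hN i c g (g * h) k‖ ≤ N h * (1 / 32 : ℝ) ^ k := by
  unfold trm
  rw [norm_mul, Real.norm_eq_abs, Real.norm_eq_abs, abs_of_nonneg (by positivity), mul_comm]
  have h1 := phi_abs hN (4 ^ (i + 5 * k)) c g h
  have h2 : (1 / 2 : ℝ) ^ (i + 5 * k) ≤ (1 / 32 : ℝ) ^ k := by
    rw [pow_add, pow_mul]
    norm_num
    have : ((1 : ℝ) / 2) ^ i ≤ 1 := pow_le_one₀ (by norm_num) (by norm_num)
    have h3 : (0 : ℝ) < (32 ^ k)⁻¹ := by positivity
    norm_num at this
    nlinarith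
  exact mul_le_mul h1 h2 (by positivity) (by positivity)

theorem trm_summable {N : G → ℕ} (hN : IsLength N) (i c : ℕ) (g h : G) :
    Summable (trm hN i c g h) := by
  have e : h = g * (g⁻¹ * h) := by group
  rw [e]
  refine Summable.of_norm_bounded (g := fun k => (N (g⁻¹ * h) : ℝ) * (1 / 32 : ℝ) ^ k)
    ((summable_geometric_of_lt_one (by norm_num) (by norm_num)).mul_left _)
    (fun k => trm_bound hN i c g (g⁻¹ * h) k)

/-- The coordinate functions. -/
noncomputable def F {N : G → ℕ} (hN : IsLength N) (i c : ℕ) (g : G) : ℝ :=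
  ∑' k, trm hN i c 1 g k

theorem F_sub {N : G → ℕ} (hN : IsLength N) (i c : ℕ) (g h : G) :
    F hN i c h - F hN i c g = ∑' k, trm hN i c g h k := by
  unfold F
  rw [← (trm_summable hN i c 1 h).tsum_sub (trm_summable hN i c 1 g)]
  congr 1
  funext k
  unfold trm
  ring

theorem F_lip {N : G → ℕ} (hN : IsLength N) (i c : ℕ) (g h : G) :
    |F hN i c (g * h) - F hN i c g| ≤ 2 * N h := by
  rw [F_sub]
  have hg : HasSum (fun k : ℕ => (N h : ℝ) * (1 / 32 : ℝ) ^ k) ((N h : ℝ) * (1 - 1 / 32)⁻¹) :=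
    (hasSum_geometric_of_lt_one (by norm_num) (by norm_num)).mul_left _
  have h3 := tsum_of_norm_bounded hg (fun k => trm_bound hN i c g h k)
  rw [Real.norm_eq_abs] at h3
  have h4 : (0 : ℝ) ≤ N h := by positivity
  norm_num at h3
  linarith

theorem F_sep {N : G → ℕ} (hN : IsLength N) {D : ℕ} (hD : Packs N D) {g h : G} (hgh : g ≠ h) :
    ∃ i < 5, ∃ c < D + 1, 1 / 2 ≤ F hN i c h - F hN i c g := by
  obtain ⟨j, c, hc, hj, hsep⟩ := separate hN hD hgh
  refine ⟨j % 5, Nat.mod_lt _ (by norm_num), c, hc, ?_⟩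
  set i := j % 5 with hi
  set k0 := j / 5 with hk0
  have hj5 : i + 5 * k0 = j := Nat.mod_add_div j 5
  rw [F_sub]
  have h32 : ∀ k : ℕ, (2 : ℝ) ^ (i + 5 * k) = 32 ^ k * 2 ^ i := by
    intro k
    rw [pow_add, pow_mul]
    norm_num
    ring
  have hw : ∀ k : ℕ, (1 / 2 : ℝ) ^ (i + 5 * k) * 4 ^ (i + 5 * k) = 32 ^ k * 2 ^ i := by
    intro k
    rw [← mul_pow, ← h32]
    norm_num
  have hk := key (trm hN i c g h) (2 ^ i) k0 (trm_summable hN i c g h) (by positivity) (by
      unfold trm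
      rw [hj5]
      have h1 : (phi hN (4 ^ j) c g : ℝ) + 4 ^ j ≤ phi hN (4 ^ j) c h := by exact_mod_cast hsep
      have h2 := hw k0
      rw [hj5] at h2
      rw [← h2]
      apply mul_le_mul_of_nonneg_left _ (by positivity)
      linarith) (by
      intro k _
      unfold trm
      rw [abs_mul, abs_of_nonneg (by positivity : (0 : ℝ) ≤ (1 / 2 : ℝ) ^ (i + 5 * k))]
      have h1 : (phi hN (4 ^ (i + 5 * k)) c g : ℝ) ≤ 2 * 4 ^ (i + 5 * k) := by
        exact_mod_cast phi_le hN (4 ^ (i + 5 * k)) c g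
      have h2 : (phi hN (4 ^ (i + 5 * k)) c h : ℝ) ≤ 2 * 4 ^ (i + 5 * k) := by
        exact_mod_cast phi_le hN (4 ^ (i + 5 * k)) c h
      have h3 : |(phi hN (4 ^ (i + 5 * k)) c h : ℝ) - phi hN (4 ^ (i + 5 * k)) c g|
          ≤ 2 * 4 ^ (i + 5 * k) := by
        rw [abs_le]
        constructor <;> linarith [Nat.cast_nonneg (α := ℝ) (phi hN (4 ^ (i + 5 * k)) c g),
          Nat.cast_nonneg (α := ℝ) (phi hN (4 ^ (i + 5 * k)) c h)]
      calc (1 / 2 : ℝ) ^ (i + 5 * k) *
            |(phi hN (4 ^ (i + 5 * k)) c h : ℝ) - phi hN (4 ^ (i + 5 * k)) c g|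
          ≤ (1 / 2 : ℝ) ^ (i + 5 * k) * (2 * 4 ^ (i + 5 * k)) :=
            mul_le_mul_of_nonneg_left h3 (by positivity)
        _ = 2 * ((1 / 2 : ℝ) ^ (i + 5 * k) * 4 ^ (i + 5 * k)) := by ring
        _ = 2 * 32 ^ k * 2 ^ i := by rw [hw]; ring) (by
      intro l
      unfold trm
      rw [abs_mul, abs_of_nonneg
        (by positivity : (0 : ℝ) ≤ (1 / 2 : ℝ) ^ (i + 5 * (l + (k0 + 1))))]
      have h3 : |(phi hN (4 ^ (i + 5 * (l + (k0 + 1)))) c h : ℝ)
          - phi hN (4 ^ (i + 5 * (l + (k0 + 1)))) c g| ≤ 12 * 4 ^ j := by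
        have h4 := phi_abs hN (4 ^ (i + 5 * (l + (k0 + 1)))) c g (g⁻¹ * h)
        rw [mul_inv_cancel_left] at h4
        refine h4.trans ?_
        have h5 : N (g⁻¹ * h) ≤ 12 * 4 ^ j := hj
        exact_mod_cast h5
      calc (1 / 2 : ℝ) ^ (i + 5 * (l + (k0 + 1))) *
            |(phi hN (4 ^ (i + 5 * (l + (k0 + 1)))) c h : ℝ)
              - phi hN (4 ^ (i + 5 * (l + (k0 + 1)))) c g|
          ≤ (1 / 2 : ℝ) ^ (i + 5 * (l + (k0 + 1))) * (12 * 4 ^ j) :=
            mul_le_mul_of_nonneg_left h3 (by positivity)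
        _ = 12 * (((1 / 2 : ℝ) ^ j * 4 ^ j)) * (1 / 32) ^ (l + 1) := by
            have e1 : i + 5 * (l + (k0 + 1)) = j + 5 * (l + 1) := by omega
            rw [e1, pow_add, pow_mul]
            norm_num
            ring
        _ = 12 * (32 ^ k0 * 2 ^ i) * (1 / 32) ^ (l + 1) := by
            have := hw k0
            rw [hj5] at this
            rw [this])
  have h1 : (1 : ℝ) ≤ 32 ^ k0 * 2 ^ i := by
    have h2 : (1 : ℝ) ≤ 32 ^ k0 := one_le_pow₀ (by norm_num)
    have h3 : (1 : ℝ) ≤ 2 ^ i := one_le_pow₀ (by norm_num)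
    nlinarith
  linarith

theorem ass : ASS := by
  intro G _ N D hN hD
  refine ⟨5 * (D + 1), 5,
    fun g idx => ⌊2 * F hN (finProdFinEquiv.symm idx).1 (finProdFinEquiv.symm idx).2 g⌋,
    by omega, ?_, ?_⟩
  · intro g h hgh
    by_contra hne
    obtain ⟨i, hi, c, hc, h1⟩ := F_sep hN hD hne
    have h2 := congrFun hgh (finProdFinEquiv ((⟨i, hi⟩ : Fin 5), (⟨c, hc⟩ : Fin (D + 1))))
    simp only [Equiv.symm_apply_apply] at h2
    have h3 := Int.floor_le (2 * F hN i c g)
    have h4 := Int.lt_floor_add_one (2 * F hN i c g)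
    have h5 := Int.floor_le (2 * F hN i c h)
    have h6 := Int.lt_floor_add_one (2 * F hN i c h)
    rw [h2] at h4 h3
    linarith
  · intro g h idx
    simp only
    set i := ((finProdFinEquiv.symm idx).1 : ℕ)
    set c := ((finProdFinEquiv.symm idx).2 : ℕ)
    by_cases hh : h = 1
    · rw [hh, mul_one, sub_self, abs_zero]
      positivity
    · have h0 : 1 ≤ N h := by
        rw [Nat.one_le_iff_ne_zero, Ne, hN.eq_zero]
        exact hh
      have h1 := F_lip hN i c g h
      have h3 := Int.floor_le (2 * F hN i c g)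
      have h4 := Int.lt_floor_add_one (2 * F hN i c g)
      have h5 := Int.floor_le (2 * F hN i c (g * h))
      have h6 := Int.lt_floor_add_one (2 * F hN i c (g * h))
      have h7 := abs_le.1 h1
      have h8 : |((⌊2 * F hN i c (g * h)⌋ - ⌊2 * F hN i c g⌋ : ℤ) : ℝ)| ≤ ((5 * N h : ℕ) : ℝ) := by
        push_cast
        have h9 : (1 : ℝ) ≤ N h := by exact_mod_cast h0
        rw [abs_le]
        constructor <;> linarith
      exact_mod_cast h8

end Pool.Agent.Y368.WB.Ass
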